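import Mathlib

/-!
Noncommutative polynomials without constant term, quasi-identities, the varieties `M(n)` and
`S(n)`, and the equality problem.
-/

set_option autoImplicit false

universe u

namespace Pool.Agent.Lib.MP_79b5eb_lc

/-- The value of the nonempty word `x_i x_{j_1} ... x_{j_k}`, given as the letter `i` and the
list `[j_1, ..., j_k]`, under the assignment `v` of elements of `A` to the variables. -/
def wval {A : Type u} [Mul A] (v : ℕ → A) : ℕ → List ℕ → A
  | i, [] => v i
  | i, j :: l => v i * wval v j l

/-- The value of the noncommutative polynomial without constant term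
`c_1 w_1 + ... + c_r w_r`, given as the list of the pairs `(c_i, w_i)` of coefficients in `F`
and nonempty words. Every noncommutative polynomial without constant term is given by such a
list. -/
def evalP {F A : Type u} [Field F] [NonUnitalRing A] [Module F A] (v : ℕ → A)
    (p : List (F × (ℕ × List ℕ))) : A :=
  (p.map fun t => t.1 • wval v t.2.1 t.2.2).sum

/-- The input format of noncommutative polynomials with rational coefficients and without
constant term: lists of pairs of a coefficient and a nonempty word, the coefficient `(a, b, c)`
standing for the rational number `(a - b) / (c + 1)`. -/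
abbrev QPoly : Type := List ((ℕ × ℕ × ℕ) × (ℕ × List ℕ))

/-- The noncommutative polynomial over `F` given by an input. -/
def QPoly.toF (F : Type u) [Field F] (p : QPoly) : List (F × (ℕ × List ℕ)) :=
  p.map fun t => (((t.1.1 : F) - (t.1.2.1 : F)) / ((t.1.2.2 : F) + 1), t.2)

/-- The input format of quasi-identities `u_1 = 0 ∧ ... ∧ u_k = 0 → u = 0`: the list of the
`u_i`, and `u`. -/
abbrev QI : Type := List QPoly × QPoly

/-- The quasi-identity `q` holds in the `F`-algebra `A`. -/
def Holds (F A : Type u) [Field F] [NonUnitalRing A] [Module F A] (q : QI) : Prop :=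
  ∀ v : ℕ → A, (∀ p ∈ q.1, evalP v (QPoly.toF F p) = 0) → evalP v (QPoly.toF F q.2) = 0

/-- `A` belongs to `M(n)`: it satisfies all the polynomial identities of the algebra of
`n × n`-matrices over `F`. -/
def InM (F : Type u) [Field F] (n : ℕ) (A : Type u) [NonUnitalRing A] [Module F A] : Prop :=
  ∀ p : List (F × (ℕ × List ℕ)),
    (∀ v : ℕ → Matrix (Fin n) (Fin n) F, evalP v p = 0) → ∀ v : ℕ → A, evalP v p = 0

/-- The value of a word given by a nonempty list of letters. -/
def lval {A : Type u} [NonUnitalRing A] (v : ℕ → A) : List ℕ → A
  | [] => 0
  | i :: l => wval v i l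

/-- `A` belongs to `S(n)` (for `n ≥ 1`): it satisfies the standard identity `s_n = 0`. -/
def InS (n : ℕ) (A : Type u) [NonUnitalRing A] : Prop :=
  ∀ v : ℕ → A, ∑ σ : Equiv.Perm (Fin n),
    ((Equiv.Perm.sign σ : ℤˣ) : ℤ) • lval v (List.ofFn fun i => ((σ i : Fin n) : ℕ)) = 0

/-- The equality problem is decidable in `M(n)`: there is an algorithm deciding whether a given
quasi-identity holds in all the algebras (associative `F`-algebras, not necessarily with unit) of
`M(n)`. -/
def EqualityDecidableM (F : Type u) [Field F] (n : ℕ) : Prop :=
  ComputablePred fun q : QI => ∀ (A : Type u) [NonUnitalRing A] [Module F A]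
    [IsScalarTower F A A] [SMulCommClass F A A], InM F n A → Holds F A q

/-- The equality problem is decidable in `S(n)`. -/
def EqualityDecidableS (F : Type u) [Field F] (n : ℕ) : Prop :=
  ComputablePred fun q : QI => ∀ (A : Type u) [NonUnitalRing A] [Module F A]
    [IsScalarTower F A A] [SMulCommClass F A A], InS n A → Holds F A q

end Pool.Agent.Lib.MP_79b5eb_lc
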