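import Pool.Agent.Lib.MP_79b5eb_lc.Rep
import Pool.Agent.Lib.MP_79b5eb_lc.Defs

/-!
The witness algebra and its polynomial identities.
-/

set_option autoImplicit false

universe u

namespace Pool.Agent.Lib.MP_79b5eb_lc

/-! ### evaluation and homomorphisms -/

theorem wval_map {A B : Type u} [Mul A] [Mul B] (f : A → B) (hf : ∀ x y, f (x * y) = f x * f y)
    (v : ℕ → A) (i : ℕ) (l : List ℕ) : f (wval v i l) = wval (fun j => f (v j)) i l := by
  induction l generalizing i with
  | nil => rfl
  | cons j l ih => simp only [wval, hf, ih]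

theorem evalP_map {F A B : Type u} [Field F] [NonUnitalRing A] [Module F A] [NonUnitalRing B]
    [Module F B] (f : A →ₙₐ[F] B) (v : ℕ → A) (p : List (F × (ℕ × List ℕ))) :
    f (evalP v p) = evalP (fun j => f (v j)) p := by
  unfold evalP
  rw [map_list_sum, List.map_map]
  congr 1
  apply List.map_congr_left
  intro t _
  simp only [Function.comp_apply, map_smul]
  rw [wval_map f (fun x y => map_mul f x y)]

theorem evalP_mapA {F A B : Type u} [Field F] [Ring A] [Algebra F A] [Ring B]
    [Algebra F B] (f : A →ₐ[F] B) (v : ℕ → A) (p : List (F × (ℕ × List ℕ))) :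
    f (evalP v p) = evalP (fun j => f (v j)) p :=
  evalP_map (f : A →ₙₐ[F] B) v p

theorem wval_eq_prod {A : Type u} [Monoid A] (v : ℕ → A) (i : ℕ) (l : List ℕ) :
    wval v i l = ((i :: l).map v).prod := by
  induction l generalizing i with
  | nil => simp [wval]
  | cons j l ih => simp only [wval, ih, List.map_cons, List.prod_cons]

/-! ### identities of matrix algebras over polynomial rings -/

theorem matrix_identity (F : Type u) [Field F] [Infinite F] {n : ℕ} (hn : 3 ≤ n)
    (p : List (F × (ℕ × List ℕ))) (h : ∀ v : ℕ → Matrix (Fin n) (Fin n) F, evalP v p = 0)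
    (v : ℕ → Matrix (Fin 3) (Fin 3) (MvPolynomial Lt F)) : evalP v p = 0 := by
  -- the identity holds for `3 × 3`-matrices over `F`
  have h3 : ∀ v : ℕ → Matrix (Fin 3) (Fin 3) F, evalP v p = 0 := by
    intro v
    obtain ⟨m, rfl⟩ := Nat.exists_eq_add_of_le hn
    let f : Matrix (Fin 3) (Fin 3) F →ₙₐ[F] Matrix (Fin 3 ⊕ Fin m) (Fin 3 ⊕ Fin m) F :=
      { toFun := fun A => Matrix.fromBlocks A 0 0 0
        map_smul' := fun c A => by
          simp [Matrix.fromBlocks_smul]
        map_zero' := Matrix.fromBlocks_zero
        map_add' := fun A B => by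
          simp [Matrix.fromBlocks_add]
        map_mul' := fun A B => by
          simp [Matrix.fromBlocks_multiply] }
    let e := Matrix.reindexAlgEquiv F F (finSumFinEquiv (m := 3) (n := m))
    have h1 : e (f (evalP v p)) = 0 := by
      have h2 := evalP_mapA (e : Matrix (Fin 3 ⊕ Fin m) (Fin 3 ⊕ Fin m) F →ₐ[F]
        Matrix (Fin (3 + m)) (Fin (3 + m)) F) (fun j => f (v j)) p
      rw [evalP_map f]
      exact h2.trans (h _)
    have h2 : f (evalP v p) = 0 := by
      have := congrArg e.symm h1
      simpa using this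
    have h4 : Matrix.fromBlocks (evalP v p) 0 0 (0 : Matrix (Fin m) (Fin m) F) = 0 := h2
    have h5 := congrArg Matrix.toBlocks₁₁ h4
    rw [Matrix.toBlocks_fromBlocks₁₁] at h5
    rw [h5]
    rfl
  ext1 i j
  apply MvPolynomial.funext
  intro x
  have h1 : ((MvPolynomial.aeval x : MvPolynomial Lt F →ₐ[F] F).mapMatrix (evalP v p)) = 0 := by
    rw [evalP_mapA]
    exact h3 _
  have h2 := congrFun (congrFun h1 i) j
  simp only [AlgHom.mapMatrix_apply, Matrix.map_apply, Matrix.zero_apply] at h2
  rw [MvPolynomial.aeval_eq_eval] at h2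
  rw [Matrix.zero_apply, map_zero]
  exact h2

section
variable (F : Type u) [Field F] (M : ℕ → Option (GI ℕ))

/-- the congruence defining the witness algebra -/
noncomputable def con : RingCon (MonoidAlgebra F (FreeMonoid Lt)) where
  r s t := ∀ x y, Phi F M (x * s * y) = Phi F M (x * t * y)
  iseqv := ⟨fun _ _ _ => rfl, fun h x y => (h x y).symm, fun h1 h2 x y => (h1 x y).trans (h2 x y)⟩
  add' := by
    intro s t s' t' h1 h2 x y
    rw [mul_add, add_mul, map_add, mul_add, add_mul, map_add, h1, h2]
  mul' := by
    intro s t s' t' h1 h2 x y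
    have e1 := h1 x (s' * y)
    have e2 := h2 (x * t) y
    simp only [mul_assoc] at e1 e2 ⊢
    exact e1.trans e2

theorem con_def (s t : MonoidAlgebra F (FreeMonoid Lt)) :
    con F M s t ↔ ∀ x y, Phi F M (x * s * y) = Phi F M (x * t * y) := Iff.rfl

/-- the unital witness algebra -/
abbrev W1 : Type u := (con F M).Quotient

/-- the projection -/
noncomputable def prj : MonoidAlgebra F (FreeMonoid Lt) →ₐ[F] W1 F M := (con F M).mkₐ (α := F)

theorem prj_surjective : Function.Surjective (prj F M) := RingCon.mkₐ_surjective _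

theorem prj_eq_iff (s t : MonoidAlgebra F (FreeMonoid Lt)) : prj F M s = prj F M t ↔
    ∀ x y, Phi F M (x * s * y) = Phi F M (x * t * y) := by
  rw [← con_def]
  exact (con F M).eq

/-- words in the free algebra -/
noncomputable def wo (w : List Lt) : MonoidAlgebra F (FreeMonoid Lt) :=
  MonoidAlgebra.of F (FreeMonoid Lt) (FreeMonoid.ofList w)

theorem wo_append (w w' : List Lt) : wo F (w ++ w') = wo F w * wo F w' := by
  unfold wo
  rw [FreeMonoid.ofList_append, map_mul]

theorem wo_nil : wo F [] = 1 := by
  unfold wo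
  rw [FreeMonoid.ofList_nil, map_one]

theorem Phi_wo (w : List Lt) : Phi F M (wo F w) = Psi F M w := Phi_of F M w

theorem Phi_words {s t : MonoidAlgebra F (FreeMonoid Lt)}
    (h : ∀ x y : List Lt, Phi F M (wo F x * s * wo F y) = Phi F M (wo F x * t * wo F y)) :
    prj F M s = prj F M t := by
  rw [prj_eq_iff]
  intro x y
  induction x using MonoidAlgebra.induction_on with
  | of x =>
    induction y using MonoidAlgebra.induction_on with
    | of y => exact h x.toList y.toList
    | add y z hy hz => rw [mul_add, map_add, hy, hz, mul_add, map_add]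
    | smul c y hy => rw [mul_smul_comm, map_smul, hy, mul_smul_comm, map_smul]
  | add x z hx hz => rw [add_mul, add_mul, map_add, hx, hz, add_mul, add_mul, map_add]
  | smul c x hx =>
    rw [smul_mul_assoc, smul_mul_assoc, map_smul, hx, smul_mul_assoc, smul_mul_assoc, map_smul]

/-- equality of words in the witness algebra -/
theorem word_eq {w w' : List Lt}
    (h : ∀ x y : List Lt, Psi F M (x ++ w ++ y) = Psi F M (x ++ w' ++ y)) :
    prj F M (wo F w) = prj F M (wo F w') := by
  apply Phi_words
  intro x y
  rw [← wo_append, ← wo_append, ← wo_append, ← wo_append, Phi_wo, Phi_wo]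
  exact h x y

/-- the witness algebra is in `M(n)` -/
theorem inM_W1 [Infinite F] {n : ℕ} (hn : 3 ≤ n) : InM F n (W1 F M) := by
  intro p hp v
  choose t ht using fun i => prj_surjective F M (v i)
  have h1 : evalP v p = prj F M (evalP t p) := by
    rw [evalP_mapA]
    congr 1
    funext i
    exact (ht i).symm
  have h2 : rho F (evalP t p) = 0 := by
    rw [evalP_mapA]
    exact matrix_identity F hn p hp _
  rw [h1, ← map_zero (prj F M), prj_eq_iff]
  intro x y
  rw [mul_zero, zero_mul, map_zero]
  show lam F M (rho F (x * evalP t p * y) 0 0) = 0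
  rw [map_mul, map_mul, h2, mul_zero, zero_mul, Matrix.zero_apply, map_zero]

end

end Pool.Agent.Lib.MP_79b5eb_lc
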