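import Pool.Agent.Lib.MP_79b5eb_lc.Machine

/-!
Letters, words and their shapes.
-/

set_option autoImplicit false

namespace Pool.Agent.Lib.MP_79b5eb_lc

/-- letters -/
inductive Lt : Type
  | A : Lt
  | B : Lt
  | h : Lt
  | a (k : Fin 4) : Lt
  | b (k : Fin 4) : Lt
  | q (i : ℕ) : Lt
  | r (i j : ℕ) : Lt
  deriving DecidableEq

instance : Nonempty Lt := ⟨Lt.A⟩

namespace Lt

/-- numbering of letters -/
def num : Lt → ℕ
  | A => 0
  | B => 1
  | h => 2
  | a k => 3 + k
  | b k => 7 + k
  | q i => 11 + 2 * i
  | r i j => 12 + 2 * Nat.pair i j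

theorem num_injective : Function.Injective num := by
  intro x y h
  cases x <;> cases y <;> simp only [num] at h <;> first
    | rfl
    | (exfalso; omega)
    | (congr 1; apply Fin.ext; omega)
    | (congr 1; omega)
    | skip
  rename_i i j i' j'
  obtain ⟨h1, h2⟩ := Nat.pair_eq_pair.1 (show Nat.pair i j = Nat.pair i' j' by omega)
  rw [h1, h2]

/-- letter with a given number -/
noncomputable def dl : ℕ → Lt := Function.invFun num (α := Lt)

end Lt

theorem Lt.dl_num (l : Lt) : Lt.dl (Lt.num l) = l :=
  Function.leftInverse_invFun Lt.num_injective l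

open Lt

/-- source of a letter -/
def src : Lt → Fin 3
  | Lt.A => 2
  | Lt.B => 0
  | Lt.h => 1
  | Lt.a _ => 2
  | Lt.b _ => 1
  | Lt.q _ => 1
  | Lt.r _ _ => 1

/-- target of a letter -/
def tgt : Lt → Fin 3
  | Lt.A => 0
  | Lt.B => 1
  | Lt.h => 2
  | Lt.a _ => 2
  | Lt.b _ => 1
  | Lt.q _ => 2
  | Lt.r _ _ => 2

/-- special letters -/
def spl : Lt → ℕ
  | Lt.a _ => 0
  | Lt.b _ => 0
  | _ => 1

/-- number of special letters -/
def spec (w : List Lt) : ℕ := (w.map spl).sum

/-- the word labels a path from `i` to `j` -/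
def path : List Lt → Fin 3 → Fin 3 → Prop
  | [], i, j => i = j
  | l :: w, i, j => i = src l ∧ path w (tgt l) j

theorem path_append (w w' : List Lt) : ∀ i j, path (w ++ w') i j ↔ ∃ k, path w i k ∧ path w' k j := by
  induction w with
  | nil => intro i j; simp [path]
  | cons l w ih =>
    intro i j
    simp only [List.cons_append, path, ih]
    constructor
    · rintro ⟨h1, k, h2, h3⟩
      exact ⟨k, ⟨h1, h2⟩, h3⟩
    · rintro ⟨k, ⟨h1, h2⟩, h3⟩
      exact ⟨h1, k, h2, h3⟩

theorem spec_append (w w' : List Lt) : spec (w ++ w') = spec w + spec w' := by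
  simp [spec]

theorem spec_cons (l : Lt) (w : List Lt) : spec (l :: w) = spl l + spec w := by
  simp [spec]

theorem spec_nil : spec [] = 0 := rfl

/-- words without special letters -/
theorem path_spec_zero (w : List Lt) : ∀ i j, path w i j → spec w = 0 →
    i = j ∧ (i = 0 → w = []) ∧ (i = 1 → ∀ l ∈ w, ∃ k, l = Lt.b k) ∧
      (i = 2 → ∀ l ∈ w, ∃ k, l = Lt.a k) := by
  induction w with
  | nil =>
    intro i j h _
    exact ⟨h, fun _ => rfl, fun _ l hl => absurd hl (by simp), fun _ l hl => absurd hl (by simp)⟩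
  | cons l w ih =>
    intro i j h hs
    rw [spec_cons] at hs
    obtain ⟨h1, h2⟩ := h
    have h3 := ih _ _ h2 (by omega)
    have h4 : spl l = 0 := by omega
    cases l with
    | a k =>
      simp only [src, tgt] at h1 h2 h3
      subst h1
      refine ⟨h3.1, fun h => absurd h (by decide), fun h => absurd h (by decide), fun _ => ?_⟩
      intro l hl
      rcases List.mem_cons.1 hl with rfl | hl
      · exact ⟨k, rfl⟩
      · exact h3.2.2.2 trivial l hl
    | b k =>
      simp only [src, tgt] at h1 h2 h3
      subst h1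
      refine ⟨h3.1, fun h => absurd h (by decide), fun _ => ?_, fun h => absurd h (by decide)⟩
      intro l hl
      rcases List.mem_cons.1 hl with rfl | hl
      · exact ⟨k, rfl⟩
      · exact h3.2.2.1 trivial l hl
    | _ => simp [spl] at h4

/-- decomposition of the left part -/
theorem left_decomp {x : List Lt} (h : path x 0 1) :
    1 ≤ spec x ∧ (spec x = 1 → ∃ x', x = Lt.B :: x' ∧ ∀ l ∈ x', ∃ k, l = Lt.b k) := by
  cases x with
  | nil => simp [path] at h
  | cons l x =>
    obtain ⟨h1, h2⟩ := h
    cases l with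
    | B =>
      rw [spec_cons]
      refine ⟨by simp [spl], fun hs => ⟨x, rfl, ?_⟩⟩
      have hs' : spec x = 0 := by simp only [spl] at hs; omega
      exact (path_spec_zero x _ _ h2 hs').2.2.1 rfl
    | _ => simp [src] at h1

/-- decomposition of the right part -/
theorem right_decomp (y : List Lt) : path y 2 0 →
    1 ≤ spec y ∧ (spec y = 1 → ∃ y', y = y' ++ [Lt.A] ∧ ∀ l ∈ y', ∃ k, l = Lt.a k) := by
  induction y with
  | nil => intro h; simp [path] at h
  | cons l y ih =>
    rintro ⟨h1, h2⟩
    cases l with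
    | A =>
      rw [spec_cons]
      refine ⟨by simp [spl], fun hs => ⟨[], ?_, by simp⟩⟩
      have hs' : spec y = 0 := by simp only [spl] at hs; omega
      rw [(path_spec_zero y _ _ h2 hs').2.1 rfl]
      rfl
    | a k =>
      have h3 := ih h2
      rw [spec_cons]
      refine ⟨by simp only [spl]; omega, fun hs => ?_⟩
      obtain ⟨y', hy, hy'⟩ := h3.2 (by simp only [spl] at hs; omega)
      refine ⟨Lt.a k :: y', by rw [hy]; rfl, ?_⟩
      intro l hl
      rcases List.mem_cons.1 hl with rfl | hl
      · exact ⟨k, rfl⟩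
      · exact hy' l hl
    | _ => simp [src] at h1

/-- vertices determine the number of special letters modulo `3` -/
theorem spec_mod (w : List Lt) : ∀ i j : Fin 3, path w i j →
    ((i : ℕ) + spec w) % 3 = (j : ℕ) := by
  induction w with
  | nil =>
    intro i j h
    have : i = j := h
    subst this
    rw [spec_nil]
    have := i.2
    omega
  | cons l w ih =>
    rintro i j ⟨h1, h2⟩
    have h3 := ih _ _ h2
    rw [spec_cons]
    subst h1
    cases l <;> simp [src, tgt, spl] at h3 ⊢ <;> omega

theorem closed_decomp {x : List Lt} (h : path x 0 0) : x = [] ∨ 3 ≤ spec x := by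
  by_cases hs : spec x = 0
  · left
    exact (path_spec_zero x _ _ h hs).2.1 rfl
  · right
    have h1 := spec_mod x _ _ h
    simp at h1
    omega

end Pool.Agent.Lib.MP_79b5eb_lc
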