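import Pool.Agent.Lib.MP_79b5eb_lc.Machine

/-!
A finite register machine with undecidable halting problem: reduction to finitely many states.
-/

set_option autoImplicit false

namespace Pool.Agent.Lib.MP_79b5eb_lc

open Turing Turing.PartrecToTM2
open Turing.ToPartrec (Code)

/-- reachable states -/
def QS (c : Code) : Set (SS × Option Γ') :=
  {p | some p.1 ∈ TM2.stmts trS (codeSupp c Cont'.halt)}

theorem QS_finite (c : Code) : (QS c).Finite := by
  have h : {s : SS | some s ∈ TM2.stmts trS (codeSupp c Cont'.halt)}.Finite :=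
    (Finset.finite_toSet _).preimage (Option.some_injective _).injOn
  refine (h.prod (Set.finite_univ (α := Option Γ'))).subset ?_
  intro p hp
  exact ⟨hp, trivial⟩

theorem QS_supports (c : Code) {s : SS} (h : some s ∈ TM2.stmts trS (codeSupp c Cont'.halt)) :
    TM2.SupportsStmt (codeSupp c Cont'.halt) s :=
  @TM2.stmts_supportsStmt _ _ _ _ ⟨trNormal c Cont'.halt⟩ _ _ _ (tr_supports c Cont'.halt) h

theorem QS_label (c : Code) {l : Λ'} (h : l ∈ codeSupp c Cont'.halt) (v : Option Γ') :
    (trS l, v) ∈ QS c := by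
  show some (trS l) ∈ TM2.stmts trS (codeSupp c Cont'.halt)
  simp only [TM2.stmts, Finset.mem_insertNone, Finset.mem_biUnion, Option.mem_def,
    Option.some.injEq, forall_eq']
  exact ⟨l, h, TM2.stmts₁_self⟩

theorem QS_init (c : Code) : (trS (trNormal c Cont'.halt), none) ∈ QS c :=
  QS_label c (codeSupp_self _ _ (trStmts₁_self _)) none

theorem QS_closed (c : Code) {p : SS × Option Γ'} {g : GI (SS × Option Γ')} (hp : p ∈ QS c)
    (h : micro p = some g) (r : ℕ) : g.nx r ∈ QS c ∧ 0 < g.m := by
  obtain ⟨s, v⟩ := p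
  have key : ∀ {s' : SS} {v' : Option Γ'}, s' ∈ TM2.stmts₁ s → (s', v') ∈ QS c :=
    fun hs => TM2.stmts_trans hs hp
  cases s with
  | halt => simp [micro] at h
  | push k f q =>
    simp only [micro, Option.some.injEq] at h
    subst h
    refine ⟨key ?_, by norm_num⟩
    simp only [TM2.stmts₁, Finset.mem_insert]
    exact Or.inr TM2.stmts₁_self
  | peek k f q =>
    simp only [micro, Option.some.injEq] at h
    subst h
    refine ⟨key ?_, by norm_num⟩
    simp only [TM2.stmts₁, Finset.mem_insert]
    exact Or.inr TM2.stmts₁_self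
  | pop k f q =>
    simp only [micro, Option.some.injEq] at h
    subst h
    refine ⟨key ?_, by norm_num⟩
    simp only [TM2.stmts₁, Finset.mem_insert]
    exact Or.inr TM2.stmts₁_self
  | load a q =>
    simp only [micro, Option.some.injEq] at h
    subst h
    refine ⟨key ?_, by norm_num⟩
    simp only [TM2.stmts₁, Finset.mem_insert]
    exact Or.inr TM2.stmts₁_self
  | branch f q₁ q₂ =>
    simp only [micro, Option.some.injEq] at h
    subst h
    refine ⟨key ?_, by norm_num⟩
    simp only [TM2.stmts₁, Finset.mem_insert, Finset.mem_union]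
    cases f v
    · exact Or.inr (Or.inr TM2.stmts₁_self)
    · exact Or.inr (Or.inl TM2.stmts₁_self)
  | goto l =>
    simp only [micro, Option.some.injEq] at h
    subst h
    refine ⟨QS_label c ?_ v, by norm_num⟩
    exact QS_supports c hp v

/-- transport of a machine to natural numbers -/
theorem transport {Q : Type} (M : Q → Option (GI Q)) (S : Set Q) (hfin : S.Finite) (q0 : Q)
    (h0 : q0 ∈ S)
    (hcl : ∀ p ∈ S, ∀ g, M p = some g → ∀ r, g.nx r ∈ S ∧ 0 < g.m) :
    ∃ (M' : ℕ → Option (GI ℕ)) (N i0 : ℕ), i0 < N ∧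
      (∀ i g, M' i = some g → 0 < g.m ∧ ∀ r, g.nx r < N) ∧
      ∀ R, Halts M' i0 R ↔ Halts M q0 R := by
  classical
  have : Finite S := hfin
  obtain ⟨N, ⟨e⟩⟩ := Finite.exists_equiv_fin S
  let idx : Q → ℕ := fun p => if h : p ∈ S then (e ⟨p, h⟩ : ℕ) else 0
  let M' : ℕ → Option (GI ℕ) := fun i =>
    if h : i < N then (M (e.symm ⟨i, h⟩).1).map fun g => ⟨g.k, g.m, g.l, g.d, fun r => idx (g.nx r)⟩
    else none
  have hidx : ∀ p (h : p ∈ S), idx p < N := by
    intro p h
    simp only [idx, dif_pos h]
    exact (e ⟨p, h⟩).2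
  have hM' : ∀ p (h : p ∈ S), M' (idx p) =
      (M p).map fun g => ⟨g.k, g.m, g.l, g.d, fun r => idx (g.nx r)⟩ := by
    intro p h
    have h1 := hidx p h
    simp only [M', dif_pos h1]
    have h2 : (⟨idx p, h1⟩ : Fin N) = e ⟨p, h⟩ := by
      apply Fin.ext
      simp only [idx, dif_pos h]
    rw [h2, Equiv.symm_apply_apply]
  refine ⟨M', N, idx q0, hidx q0 h0, ?_, ?_⟩
  · intro i g hg
    by_cases hi : i < N
    · simp only [M', dif_pos hi, Option.map_eq_some_iff] at hg
      obtain ⟨g', hg', rfl⟩ := hg
      have h1 := hcl _ (e.symm ⟨i, hi⟩).2 g' hg'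
      exact ⟨(h1 0).2, fun r => hidx _ (h1 r).1⟩
    · simp only [M', dif_neg hi] at hg
      exact absurd hg (by simp)
  · have back : ∀ (p : Q) (R : Fin 4 → ℕ), Halts M p R → p ∈ S → Halts M' (idx p) R := by
      intro p R h
      induction h with
      | @halt p R hp =>
        intro hS
        apply Halts.halt
        rw [hM' p hS, hp]
        rfl
      | @step p R g hp h ih =>
        intro hS
        refine Halts.step (g := ⟨g.k, g.m, g.l, g.d, fun r => idx (g.nx r)⟩) ?_ ?_
        · rw [hM' p hS, hp]
          rfl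
        · exact ih (hcl p hS g hp _).1
    have forth : ∀ (i : ℕ) (R : Fin 4 → ℕ), Halts M' i R → ∀ p ∈ S, idx p = i → Halts M p R := by
      intro i R h
      induction h with
      | @halt i R hp =>
        intro p hS hi
        subst hi
        apply Halts.halt
        rw [hM' p hS] at hp
        simpa using hp
      | @step i R g hp h ih =>
        intro p hS hi
        subst hi
        rw [hM' p hS, Option.map_eq_some_iff] at hp
        obtain ⟨g', hg', rfl⟩ := hp
        exact Halts.step hg' (ih _ (hcl p hS g' hg' _).1 rfl)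
    intro R
    exact ⟨fun h => forth _ R h q0 h0 rfl, fun h => back q0 R h h0⟩

/-- the number of the initial stack -/
def E0 (x : ℕ) : ℕ := enc (trList [x])

theorem E0_zero : E0 0 = 2 := by
  simp [E0, enc, dig]

theorem trNat_div (x : ℕ) (h : x ≠ 0) :
    trNat x = (if x % 2 = 0 then Γ'.bit0 else Γ'.bit1) :: trNat (x / 2) := by
  rcases Nat.even_or_odd' x with ⟨y, rfl | rfl⟩
  · have hy : y ≠ 0 := by omega
    have h1 : (2 * y) % 2 = 0 := by omega
    have h2 : (2 * y) / 2 = y := by omega
    rw [h1, h2, if_pos rfl]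
    have h3 : ((2 * y : ℕ) : Num) = Num.bit0 (y : Num) := by
      have : ((2 * y : ℕ) : Num) = (y : Num) + (y : Num) := by
        rw [two_mul]; push_cast; rfl
      rw [this, Num.bit0_of_bit0]
    unfold trNat
    rw [h3]
    cases hn : (y : Num) with
    | zero =>
      exfalso
      apply hy
      have : ((y : Num) : ℕ) = y := Num.to_of_nat y
      rw [hn] at this
      exact this.symm
    | pos p => rfl
  · have h1 : (2 * y + 1) % 2 = 1 := by omega
    have h2 : (2 * y + 1) / 2 = y := by omega
    rw [h1, h2, if_neg (by norm_num)]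
    have h3 : ((2 * y + 1 : ℕ) : Num) = Num.bit1 (y : Num) := by
      have : ((2 * y + 1 : ℕ) : Num) = (y : Num) + (y : Num) + 1 := by
        rw [two_mul]; push_cast; rfl
      rw [this, Num.bit1_of_bit1]
    unfold trNat
    rw [h3]
    cases (y : Num) <;> rfl

theorem E0_succ (x : ℕ) (h : x ≠ 0) : E0 x = 5 * E0 (x / 2) + (if x % 2 = 0 then 3 else 4) := by
  unfold E0
  simp only [trList]
  rw [trNat_div x h]
  simp only [List.cons_append, enc]
  congr 1
  split_ifs <;> rfl

theorem computable_E0 : Computable E0 := by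
  have h : Primrec₂ fun (_ : Unit) (x : ℕ) => E0 x := by
    refine Primrec.nat_strong_rec _ (g := fun _ l =>
      if l.length = 0 then some 2 else
        (l[l.length / 2]?).map fun y => 5 * y + (if l.length % 2 = 0 then 3 else 4)) ?_ ?_
    · have hl : Primrec fun p : Unit × List ℕ => p.2.length :=
        Primrec.list_length.comp Primrec.snd
      refine Primrec.ite (Primrec.eq.comp hl (Primrec.const 0)) (Primrec.const _) ?_
      refine Primrec.option_map ?_ ?_
      · exact Primrec.list_getElem?.comp Primrec.snd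
          (Primrec.nat_div.comp hl (Primrec.const 2))
      · have h1 : Primrec fun q : (Unit × List ℕ) × ℕ => if q.1.2.length % 2 = 0 then 3 else 4 :=
          Primrec.ite (Primrec.eq.comp (Primrec.nat_mod.comp (hl.comp Primrec.fst)
            (Primrec.const 2)) (Primrec.const 0)) (Primrec.const 3) (Primrec.const 4)
        exact (Primrec.nat_add.comp (Primrec.nat_mul.comp (Primrec.const 5) Primrec.snd) h1).to₂
    · intro _ n
      simp only [List.length_map, List.length_range]
      by_cases hn : n = 0
      · subst hn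
        simp [E0_zero]
      · rw [if_neg hn]
        have h1 : n / 2 < n := Nat.div_lt_self (Nat.pos_of_ne_zero hn) (by norm_num)
        rw [List.getElem?_map, List.getElem?_range h1]
        simp only [Option.map_some]
        rw [← E0_succ n hn]
  exact (h.comp (Primrec.const ()) Primrec.id).to_comp

theorem exists_code_halting : ∃ c : Code, ¬ ComputablePred fun x : ℕ => (c.eval [x]).Dom := by
  have h1 : Partrec fun x : ℕ => Nat.Partrec.Code.eval (Denumerable.ofNat Nat.Partrec.Code x) 0 :=
    Nat.Partrec.Code.eval_part.comp (Computable.ofNat Nat.Partrec.Code) (Computable.const 0)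
  obtain ⟨c, hc⟩ := Turing.ToPartrec.Code.exists_code (Nat.Partrec'.part_iff₁.2 h1)
  refine ⟨c, fun h => ?_⟩
  apply ComputablePred.halting_problem 0
  obtain ⟨f, hf, hcf⟩ := ComputablePred.computable_iff.1 h
  refine ComputablePred.computable_iff.2 ⟨fun c' => f (Encodable.encode c'),
    hf.comp Computable.encode, ?_⟩
  funext c'
  have h2 : ((c.eval [Encodable.encode c']).Dom) = (f (Encodable.encode c') : Prop) :=
    congrFun hcf (Encodable.encode c')
  rw [← h2]
  have h3 := hc (Encodable.encode c' ::ᵥ List.Vector.nil)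
  simp only [List.Vector.head_cons, Denumerable.ofNat_encode] at h3
  have h4 : (Encodable.encode c' ::ᵥ List.Vector.nil : List.Vector ℕ 1).1 =
    [Encodable.encode c'] := rfl
  rw [h4] at h3
  rw [h3]
  rfl

theorem machine : ∃ (M : ℕ → Option (GI ℕ)) (N i0 : ℕ) (E : ℕ → ℕ), i0 < N ∧
    (∀ i g, M i = some g → 0 < g.m ∧ ∀ r, g.nx r < N) ∧ Computable E ∧
    ¬ ComputablePred fun x => Halts M i0 (fun i => if i = 0 then E x else 0) := by
  obtain ⟨c, hc⟩ := exists_code_halting
  obtain ⟨M, N, i0, h0, hcl, hM⟩ := transport micro (QS c) (QS_finite c)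
    (trS (trNormal c Cont'.halt), none) (QS_init c) (fun p hp g hg r => QS_closed c hp hg r)
  refine ⟨M, N, i0, E0, h0, hcl, computable_E0, fun h => hc (h.of_eq fun x => ?_)⟩
  rw [hM, ← halts_init_iff]
  have : (fun i : Fin 4 => if i = 0 then E0 x else 0) =
      encS (K'.elim (trList [x]) [] [] []) := by
    funext i
    fin_cases i
    · rfl
    · simp [encS, kinv, enc, K'.elim]
    · simp [encS, kinv, enc, K'.elim]
    · simp [encS, kinv, enc, K'.elim]
  rw [this]

end Pool.Agent.Lib.MP_79b5eb_lc
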