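import Pool.Agent.Lib.MP_79b5eb_lc.Valid
import Pool.Agent.Lib.MP_79b5eb_lc.Machine2

/-!
Undecidability of the equality problem.
-/

set_option autoImplicit false

universe u

namespace Pool.Agent.Lib.MP_79b5eb_lc

open Lt

/-- word over the numbers of letters -/
def wq (w : Lt × List Lt) : ℕ × List ℕ := (num w.1, w.2.map num)

/-- the polynomial `w - w'` -/
def relP (p : (Lt × List Lt) × (Lt × List Lt)) : QPoly :=
  [((1, 0, 0), wq p.1), ((0, 1, 0), wq p.2)]

/-- the conclusion -/
def conclW (i0 e : ℕ) : (Lt × List Lt) × (Lt × List Lt) :=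
  ((B, q i0 :: (List.replicate e (a 0) ++ [A])), (B, [Lt.h, A]))

/-- the quasi-identity -/
def qi (M : ℕ → Option (GI ℕ)) (N i0 e : ℕ) : QI := ((rels M N).map relP, relP (conclW i0 e))

theorem evalP_relP (F : Type u) [Field F] {A : Type u} [NonUnitalRing A] [Module F A] (v : ℕ → A)
    (p : (Lt × List Lt) × (Lt × List Lt)) :
    evalP v (QPoly.toF F (relP p)) =
      wval v (wq p.1).1 (wq p.1).2 - wval v (wq p.2).1 (wq p.2).2 := by
  simp [evalP, QPoly.toF, relP, sub_eq_add_neg]

section witness
variable (F : Type u) [Field F] (M : ℕ → Option (GI ℕ))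

/-- the valuation in the witness algebra -/
noncomputable def vW (i : ℕ) : W2 F M :=
  ⟨prj F M (wo F [dl i]), NonUnitalAlgebra.subset_adjoin F ⟨dl i, rfl⟩⟩

theorem wo_map (w : List Lt) : (w.map fun l => wo F [l]).prod = wo F w := by
  induction w with
  | nil => simp [wo_nil]
  | cons l w ih =>
    rw [List.map_cons, List.prod_cons, ih, ← wo_append]
    rfl

theorem wval_vW (w : Lt × List Lt) :
    ((wval (vW F M) (wq w).1 (wq w).2 : W2 F M) : W1 F M) = prj F M (wo F (comb w)) := by
  have h1 : ((wval (vW F M) (wq w).1 (wq w).2 : W2 F M) : W1 F M) =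
      wval (fun j => (vW F M j : W1 F M)) (wq w).1 (wq w).2 :=
    wval_map (fun x : W2 F M => (x : W1 F M)) (fun _ _ => rfl) (vW F M) _ _
  rw [h1, wval_eq_prod]
  have h2 : ((wq w).1 :: (wq w).2).map (fun j => (vW F M j : W1 F M)) =
      (comb w).map fun l => prj F M (wo F [l]) := by
    have h3 : (wq w).1 :: (wq w).2 = (comb w).map num := rfl
    rw [h3, List.map_map]
    apply List.map_congr_left
    intro l _
    show prj F M (wo F [dl (num l)]) = prj F M (wo F [l])
    rw [Lt.dl_num]
  rw [h2, ← wo_map F (comb w), map_list_prod, List.map_map]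
  rfl

theorem Psi_final : Psi F M (comb (B, [Lt.h, A])) = 1 := by
  classical
  rw [Psi_eq, if_pos]
  · simp [comb, sumv, vl]
  · simp [comb, path, src, tgt, spec, spl]

theorem Psi_init (i0 e : ℕ) :
    Psi F M (comb (B, q i0 :: (List.replicate e (a 0) ++ [A]))) =
      ind F (Halts M i0 (Pi.single 0 e)) := by
  classical
  rw [Psi_eq, if_pos]
  · simp only [comb, sumv_cons, sumv_append, sumv_isA F M (isA_rep _ _), sumv_nil, vl_A, vl_B,
      zero_add, add_zero, ca_B, cb_B, ca_q, cb_q, ca_append, cb_append, ca_rep,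
      cb_isA (isA_rep _ _), ca_A, cb_A, ca_nil, cb_nil]
    rw [vl_q_zero]
  · constructor
    · simp only [comb, path, src, tgt, path_rep, and_self]
    · simp only [comb, spec_cons, spec_append, spec_rep, spec_nil, spl]

theorem not_holds (F : Type u) [Field F] {M : ℕ → Option (GI ℕ)} {N i0 e : ℕ}
    (hcl : ∀ i g, M i = some g → 0 < g.m ∧ ∀ r, g.nx r < N)
    (h : Holds F (W2 F M) (qi M N i0 e)) : Halts M i0 (Pi.single 0 e) := by
  have h1 := h (vW F M) (by
    intro p hp
    obtain ⟨p', hp', rfl⟩ := List.mem_map.1 hp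
    rw [evalP_relP]
    apply Subtype.ext
    show ((wval (vW F M) (wq p'.1).1 (wq p'.1).2 : W2 F M) : W1 F M) -
      ((wval (vW F M) (wq p'.2).1 (wq p'.2).2 : W2 F M) : W1 F M) = 0
    rw [wval_vW, wval_vW, sub_eq_zero]
    exact word_eq F M (rels_valid F M hcl p' hp'))
  have h2 : evalP (vW F M) (QPoly.toF F (relP (conclW i0 e))) = 0 := h1
  rw [evalP_relP] at h2
  have h3 : ((wval (vW F M) (wq (conclW i0 e).1).1 (wq (conclW i0 e).1).2 : W2 F M) : W1 F M) -
      ((wval (vW F M) (wq (conclW i0 e).2).1 (wq (conclW i0 e).2).2 : W2 F M) : W1 F M) = 0 :=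
    congrArg Subtype.val h2
  rw [wval_vW, wval_vW, sub_eq_zero, prj_eq_iff] at h3
  have h4 := h3 1 1
  rw [one_mul, mul_one, one_mul, mul_one, Phi_wo, Phi_wo] at h4
  unfold conclW at h4
  rw [Psi_init, Psi_final, ind] at h4
  by_contra hc
  rw [if_neg hc] at h4
  exact zero_ne_one h4

end witness

theorem holds_of_halts (F : Type u) [Field F] {M : ℕ → Option (GI ℕ)} {N i0 e : ℕ} (h0 : i0 < N)
    (hcl : ∀ i g, M i = some g → 0 < g.m ∧ ∀ r, g.nx r < N)
    (hh : Halts M i0 (Pi.single 0 e)) (A : Type u) [NonUnitalRing A] [Module F A]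
    [IsScalarTower F A A] [SMulCommClass F A A] : Holds F A (qi M N i0 e) := by
  intro v hv
  have key : ∀ w : Lt × List Lt, ((wval v (wq w).1 (wq w).2 : A) : Unitization F A) =
      ((comb w).map fun l => ((v (num l) : A) : Unitization F A)).prod := by
    intro w
    have h1 : ((wval v (wq w).1 (wq w).2 : A) : Unitization F A) =
        wval (fun j => ((v j : A) : Unitization F A)) (wq w).1 (wq w).2 :=
      wval_map (fun x : A => (x : Unitization F A)) (fun x y => Unitization.inr_mul F x y) v _ _
    rw [h1, wval_eq_prod]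
    have h3 : (wq w).1 :: (wq w).2 = (comb w).map num := rfl
    rw [h3, List.map_map]
    rfl
  have hS : Sat (fun l => ((v (num l) : A) : Unitization F A)) M N := by
    intro p hp
    rw [← key, ← key]
    have h1 := hv (relP p) (List.mem_map.2 ⟨p, hp, rfl⟩)
    rw [evalP_relP, sub_eq_zero] at h1
    rw [h1]
  have h2 := hS.derive hcl hh h0 (List.replicate e 0) (by
    intro k
    rw [List.count_replicate]
    by_cases hk : k = 0
    · subst hk
      simp
    · rw [Pi.single_eq_of_ne hk]
      simp [Ne.symm hk])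
  show evalP v (QPoly.toF F (relP (conclW i0 e))) = 0
  rw [evalP_relP, sub_eq_zero]
  apply Unitization.inr_injective (R := F)
  show ((wval v (wq (conclW i0 e).1).1 (wq (conclW i0 e).1).2 : A) : Unitization F A) =
    ((wval v (wq (conclW i0 e).2).1 (wq (conclW i0 e).2).2 : A) : Unitization F A)
  rw [key, key]
  rw [aw_replicate] at h2
  simp only [conclW, comb, List.map_cons, List.map_append, List.map_replicate, List.map_nil,
    List.prod_cons, List.prod_append, List.prod_replicate, List.prod_nil, mul_one]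
  simp only [mul_assoc] at h2 ⊢
  exact h2

theorem computable_qi (M : ℕ → Option (GI ℕ)) (N i0 : ℕ) : Primrec fun e => qi M N i0 e := by
  unfold qi
  refine Primrec.pair (Primrec.const _) ?_
  unfold relP conclW wq
  have h1 : ∀ e : ℕ, ((q i0 :: (List.replicate e (a 0) ++ [A])).map num) =
      num (q i0) :: ((List.range e).map (fun _ => 3) ++ [0]) := by
    intro e
    rw [List.map_cons, List.map_append, List.map_replicate]
    have h2 : List.replicate e (num (a 0)) = (List.range e).map fun _ => 3 := by
      rw [List.map_const', List.length_range]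
      rfl
    rw [h2]
    rfl
  simp only [h1]
  refine Primrec.list_cons.comp ?_ (Primrec.const _)
  refine Primrec.pair (Primrec.const _) (Primrec.pair (Primrec.const _) ?_)
  refine Primrec.list_cons.comp (Primrec.const _) ?_
  refine Primrec.list_append.comp ?_ (Primrec.const _)
  exact Primrec.list_map Primrec.list_range (Primrec.const 3).to₂

/-- the main reduction -/
theorem main_reduction (P : QI → Prop)
    (h : ∀ (M : ℕ → Option (GI ℕ)) (N i0 e : ℕ), i0 < N →
      (∀ i g, M i = some g → 0 < g.m ∧ ∀ r, g.nx r < N) →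
      (P (qi M N i0 e) ↔ Halts M i0 (Pi.single 0 e))) : ¬ ComputablePred P := by
  intro hP
  obtain ⟨M, N, i0, E, h0, hcl, hE, hM⟩ := machine
  apply hM
  obtain ⟨f, hf, hPf⟩ := ComputablePred.computable_iff.1 hP
  refine ComputablePred.computable_iff.2 ⟨fun x => f (qi M N i0 (E x)),
    hf.comp ((computable_qi M N i0).to_comp.comp hE), ?_⟩
  funext x
  have h1 : P (qi M N i0 (E x)) = (f (qi M N i0 (E x)) : Prop) := congrFun hPf _
  rw [← h1]
  apply propext
  rw [h M N i0 (E x) h0 hcl]
  have h2 : (fun i : Fin 4 => if i = 0 then E x else 0) = Pi.single 0 (E x) := by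
    funext i
    by_cases hi : i = 0
    · subst hi
      simp
    · rw [Pi.single_eq_of_ne hi, if_neg hi]
  rw [h2]

theorem undecidable_M (F : Type u) [Field F] [CharZero F] (n : ℕ) (hn : 3 ≤ n) :
    ¬ EqualityDecidableM F n := by
  have : Infinite F := CharZero.infinite F
  apply main_reduction
  intro M N i0 e h0 hcl
  constructor
  · intro h
    exact not_holds F hcl (h (W2 F M) (inM_W2 F M hn))
  · intro hh A _ _ _ _ _
    exact holds_of_halts F h0 hcl hh A

theorem undecidable_S (F : Type u) [Field F] (n : ℕ) (hn : 6 ≤ n) :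
    ¬ EqualityDecidableS F n := by
  apply main_reduction
  intro M N i0 e h0 hcl
  constructor
  · intro h
    exact not_holds F hcl (h (W2 F M) (inS_W2 F M hn))
  · intro hh A _ _ _ _ _
    exact holds_of_halts F h0 hcl hh A

end Pool.Agent.Lib.MP_79b5eb_lc
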