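import Mathlib

/-!
A finite register machine with undecidable halting problem, obtained from the stack machines of
Mathlib.
-/

set_option autoImplicit false

namespace Pool.Agent.Lib.MP_79b5eb_lc

/-- An instruction: the register `k` with value `v = m * t + r` (`r < m`) becomes `l * t + d r`,
and the next state is `nx r`. -/
structure GI (Q : Type) where
  k : Fin 4
  m : ℕ
  l : ℕ
  d : ℕ → ℕ
  nx : ℕ → Q

/-- effect on the registers -/
def GI.upd {Q : Type} (g : GI Q) (R : Fin 4 → ℕ) : Fin 4 → ℕ :=
  Function.update R g.k (g.l * (R g.k / g.m) + g.d (R g.k % g.m))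

/-- the machine halts from the given configuration -/
inductive Halts {Q : Type} (M : Q → Option (GI Q)) : Q → (Fin 4 → ℕ) → Prop
  | halt {q : Q} {R : Fin 4 → ℕ} : M q = none → Halts M q R
  | step {q : Q} {R : Fin 4 → ℕ} {g : GI Q} : M q = some g →
      Halts M (g.nx (R g.k % g.m)) (g.upd R) → Halts M q R

theorem halts_step_iff {Q : Type} {M : Q → Option (GI Q)} {q : Q} {R : Fin 4 → ℕ} {g : GI Q}
    (h : M q = some g) : Halts M q R ↔ Halts M (g.nx (R g.k % g.m)) (g.upd R) := by
  constructor
  · intro h1
    cases h1 with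
    | halt h2 => rw [h] at h2; exact absurd h2 (by simp)
    | step h2 h3 =>
      rw [h] at h2
      injection h2 with h2
      rw [h2]
      exact h3
  · exact Halts.step h

open Turing Turing.PartrecToTM2
open Turing.ToPartrec (Code)

/-- digits -/
def dig : Γ' → ℕ
  | Γ'.consₗ => 1
  | Γ'.cons => 2
  | Γ'.bit0 => 3
  | Γ'.bit1 => 4

/-- symbols -/
def sym : ℕ → Option Γ'
  | 1 => some Γ'.consₗ
  | 2 => some Γ'.cons
  | 3 => some Γ'.bit0
  | 4 => some Γ'.bit1
  | _ => none

/-- the number of a stack -/
def enc : List Γ' → ℕ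
  | [] => 0
  | a :: l => 5 * enc l + dig a

theorem dig_lt (a : Γ') : dig a < 5 := by cases a <;> simp [dig]

theorem enc_cons_div (a : Γ') (l : List Γ') : enc (a :: l) / 5 = enc l := by
  have := dig_lt a
  simp only [enc]
  omega

theorem enc_cons_mod (a : Γ') (l : List Γ') : enc (a :: l) % 5 = dig a := by
  have := dig_lt a
  simp only [enc]
  omega

theorem sym_enc (l : List Γ') : sym (enc l % 5) = l.head? := by
  cases l with
  | nil => simp [enc, sym]
  | cons a l =>
    rw [enc_cons_mod]
    cases a <;> simp [dig, sym]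

theorem enc_tail (l : List Γ') : enc l / 5 = enc l.tail := by
  cases l with
  | nil => simp [enc]
  | cons a l => rw [enc_cons_div]; rfl

/-- register of a stack -/
def kk : K' → Fin 4
  | K'.main => 0
  | K'.rev => 1
  | K'.aux => 2
  | K'.stack => 3

/-- stack of a register -/
def kinv : Fin 4 → K'
  | 0 => K'.main
  | 1 => K'.rev
  | 2 => K'.aux
  | 3 => K'.stack

theorem kinv_kk (k : K') : kinv (kk k) = k := by cases k <;> rfl
theorem kk_kinv (i : Fin 4) : kk (kinv i) = i := by fin_cases i <;> rfl

/-- registers of a family of stacks -/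
def encS (S : K' → List Γ') : Fin 4 → ℕ := fun i => enc (S (kinv i))

theorem encS_kk (S : K' → List Γ') (k : K') : encS S (kk k) = enc (S k) := by
  simp [encS, kinv_kk]

theorem encS_update (S : K' → List Γ') (k : K') (l : List Γ') :
    encS (Function.update S k l) = Function.update (encS S) (kk k) (enc l) := by
  funext i
  by_cases h : i = kk k
  · subst h
    rw [encS_kk, Function.update_self, Function.update_self]
  · rw [Function.update_of_ne h]
    have : kinv i ≠ k := by
      intro h2
      apply h
      rw [← h2, kk_kinv]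
    simp [encS, Function.update_of_ne this]

abbrev SS := TM2.Stmt (fun _ : K' => Γ') Λ' (Option Γ')

/-- the program of the stack machine -/
def trS : Λ' → SS := tr

/-- the machine simulating the stack machine -/
def micro : SS × Option Γ' → Option (GI (SS × Option Γ'))
  | (TM2.Stmt.push k f q, v) => some ⟨kk k, 1, 5, fun _ => dig (f v), fun _ => (q, v)⟩
  | (TM2.Stmt.peek k f q, v) => some ⟨kk k, 5, 5, fun r => r, fun r => (q, f v (sym r))⟩
  | (TM2.Stmt.pop k f q, v) => some ⟨kk k, 5, 1, fun _ => 0, fun r => (q, f v (sym r))⟩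
  | (TM2.Stmt.load a q, v) => some ⟨0, 1, 1, fun _ => 0, fun _ => (q, a v)⟩
  | (TM2.Stmt.branch f q₁ q₂, v) => some ⟨0, 1, 1, fun _ => 0, fun _ => (cond (f v) q₁ q₂, v)⟩
  | (TM2.Stmt.goto l, v) => some ⟨0, 1, 1, fun _ => 0, fun _ => (trS (l v), v)⟩
  | (TM2.Stmt.halt, _) => none

theorem upd_push (S : K' → List Γ') (k : K') (a : Γ') (nx : ℕ → SS × Option Γ') :
    GI.upd ⟨kk k, 1, 5, fun _ => dig a, nx⟩ (encS S) =
      encS (Function.update S k (a :: S k)) := by
  rw [encS_update]
  simp only [GI.upd, encS_kk]
  congr 1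
  simp [enc]

theorem upd_peek (S : K' → List Γ') (k : K') (nx : ℕ → SS × Option Γ') :
    GI.upd ⟨kk k, 5, 5, fun r => r, nx⟩ (encS S) = encS S := by
  simp only [GI.upd]
  have : 5 * (encS S (kk k) / 5) + encS S (kk k) % 5 = encS S (kk k) := Nat.div_add_mod _ _
  rw [this, Function.update_eq_self]

theorem upd_pop (S : K' → List Γ') (k : K') (nx : ℕ → SS × Option Γ') :
    GI.upd ⟨kk k, 5, 1, fun _ => 0, nx⟩ (encS S) =
      encS (Function.update S k (S k).tail) := by
  rw [encS_update]
  simp only [GI.upd, encS_kk]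
  congr 1
  rw [one_mul, add_zero, enc_tail]

theorem upd_id (R : Fin 4 → ℕ) (nx : ℕ → SS × Option Γ') :
    GI.upd ⟨0, 1, 1, fun _ => 0, nx⟩ R = R := by
  simp only [GI.upd]
  simp

theorem halts_push (k f q v S) : Halts micro (TM2.Stmt.push k f q, v) (encS S) ↔
    Halts micro (q, v) (encS (Function.update S k (f v :: S k))) := by
  rw [halts_step_iff (g := ⟨kk k, 1, 5, fun _ => dig (f v), fun _ => (q, v)⟩) rfl, upd_push]

theorem halts_peek (k f q v S) : Halts micro (TM2.Stmt.peek k f q, v) (encS S) ↔
    Halts micro (q, f v (S k).head?) (encS S) := by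
  rw [halts_step_iff (g := ⟨kk k, 5, 5, fun r => r, fun r => (q, f v (sym r))⟩) rfl, upd_peek]
  simp only [encS_kk, sym_enc]

theorem halts_pop (k f q v S) : Halts micro (TM2.Stmt.pop k f q, v) (encS S) ↔
    Halts micro (q, f v (S k).head?) (encS (Function.update S k (S k).tail)) := by
  rw [halts_step_iff (g := ⟨kk k, 5, 1, fun _ => 0, fun r => (q, f v (sym r))⟩) rfl, upd_pop]
  simp only [encS_kk, sym_enc]

theorem halts_load (a q v R) : Halts micro (TM2.Stmt.load a q, v) R ↔
    Halts micro (q, a v) R := by
  rw [halts_step_iff (g := ⟨0, 1, 1, fun _ => 0, fun _ => (q, a v)⟩) rfl, upd_id]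

theorem halts_branch (f q₁ q₂ v R) : Halts micro (TM2.Stmt.branch f q₁ q₂, v) R ↔
    Halts micro (cond (f v) q₁ q₂, v) R := by
  rw [halts_step_iff (g := ⟨0, 1, 1, fun _ => 0, fun _ => (cond (f v) q₁ q₂, v)⟩) rfl, upd_id]

theorem halts_goto (l v R) : Halts micro (TM2.Stmt.goto l, v) R ↔
    Halts micro (trS (l v), v) R := by
  rw [halts_step_iff (g := ⟨0, 1, 1, fun _ => 0, fun _ => (trS (l v), v)⟩) rfl, upd_id]

/-- the predicate on configurations corresponding to halting -/
def CC : TM2.Cfg (fun _ : K' => Γ') Λ' (Option Γ') → Prop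
  | ⟨none, _, _⟩ => True
  | ⟨some l, v, S⟩ => Halts micro (trS l, v) (encS S)

theorem halts_iff_CC (s : SS) : ∀ (v : Option Γ') (S : K' → List Γ'),
    Halts micro (s, v) (encS S) ↔ CC (TM2.stepAux s v S) := by
  induction s with
  | push k f q ih => intro v S; rw [halts_push, ih]; rfl
  | peek k f q ih => intro v S; rw [halts_peek, ih]; rfl
  | pop k f q ih => intro v S; rw [halts_pop, ih]; rfl
  | load a q ih => intro v S; rw [halts_load, ih]; rfl
  | branch f q₁ q₂ ih₁ ih₂ =>
    intro v S
    rw [halts_branch, TM2.stepAux]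
    cases f v
    · exact ih₂ v S
    · exact ih₁ v S
  | goto l => intro v S; rw [halts_goto]; rfl
  | halt =>
    intro v S
    constructor
    · intro _; trivial
    · intro _; exact Halts.halt rfl

theorem dom_of_halts {p : SS × Option Γ'} {R : Fin 4 → ℕ} (h : Halts micro p R) :
    ∀ S : K' → List Γ', R = encS S →
      (StateTransition.eval (TM2.step trS) (TM2.stepAux p.1 p.2 S)).Dom := by
  induction h with
  | @halt p R hp =>
    intro S hS
    obtain ⟨s, v⟩ := p
    cases s with
    | halt =>
      rw [Part.dom_iff_mem]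
      refine ⟨⟨none, v, S⟩, ?_⟩
      rw [StateTransition.mem_eval]
      exact ⟨Relation.ReflTransGen.refl, rfl⟩
    | _ => simp [micro] at hp
  | @step p R g hp h ih =>
    intro S hS
    subst hS
    obtain ⟨s, v⟩ := p
    cases s with
    | halt => simp [micro] at hp
    | push k f q =>
      simp only [micro, Option.some.injEq] at hp
      subst hp
      exact ih _ (upd_push S k (f v) _)
    | peek k f q =>
      simp only [micro, Option.some.injEq] at hp
      subst hp
      have h1 := ih _ (upd_peek S k _)
      simp only [encS_kk, sym_enc] at h1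
      exact h1
    | pop k f q =>
      simp only [micro, Option.some.injEq] at hp
      subst hp
      have h1 := ih _ (upd_pop S k _)
      simp only [encS_kk, sym_enc] at h1
      exact h1
    | load a q =>
      simp only [micro, Option.some.injEq] at hp
      subst hp
      exact ih _ (upd_id _ _)
    | branch f q₁ q₂ =>
      simp only [micro, Option.some.injEq] at hp
      subst hp
      have h1 := ih _ (upd_id _ _)
      simp only at h1 ⊢
      rw [TM2.stepAux]
      cases hf : f v <;> rw [hf] at h1 <;> exact h1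
    | goto l =>
      simp only [micro, Option.some.injEq] at hp
      subst hp
      have h1 := ih _ (upd_id _ _)
      simp only at h1 ⊢
      rw [TM2.stepAux, StateTransition.reaches_eval (b := TM2.stepAux (trS (l v)) v S)]
      · exact h1
      · exact Relation.ReflTransGen.single rfl

theorem CC_of_dom {c : TM2.Cfg (fun _ : K' => Γ') Λ' (Option Γ')}
    (h : (StateTransition.eval (TM2.step trS) c).Dom) : CC c := by
  obtain ⟨b, hb⟩ := Part.dom_iff_mem.1 h
  refine StateTransition.evalInduction (C := CC) hb ?_
  intro a _ ih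
  rcases a with ⟨_ | l, v, S⟩
  · trivial
  · have h1 := ih _ rfl
    exact (halts_iff_CC _ _ _).2 h1

theorem halts_init_iff (c : Code) (v : List ℕ) :
    Halts micro (trS (trNormal c Cont'.halt), none) (encS (K'.elim (trList v) [] [] [])) ↔
      (c.eval v).Dom := by
  have h1 : (StateTransition.eval (TM2.step trS) (init c v)).Dom ↔ (c.eval v).Dom := by
    have h2 : StateTransition.eval (TM2.step trS) (init c v) = halt <$> Code.eval c v :=
      tr_eval c v
    rw [h2]
    rfl
  rw [← h1]
  constructor
  · intro h
    have h2 := dom_of_halts h _ rfl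
    unfold init
    rw [StateTransition.reaches_eval (b := TM2.stepAux (trS (trNormal c Cont'.halt)) none
      (K'.elim (trList v) [] [] []))]
    · exact h2
    · exact Relation.ReflTransGen.single rfl
  · intro h
    exact CC_of_dom h

end Pool.Agent.Lib.MP_79b5eb_lc
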