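import Pool.Agent.Lib.MP_79b5eb_lc.Std

/-!
The defining relations, their validity in the witness algebra, and derivations.
-/

set_option autoImplicit false

universe u

namespace Pool.Agent.Lib.MP_79b5eb_lc

open Lt

/-- relations of a state -/
def relsOf (M : ℕ → Option (GI ℕ)) (i : ℕ) : List ((Lt × List Lt) × (Lt × List Lt)) :=
  match M i with
  | none => [((q i, []), (h, []))]
  | some g =>
    ((List.finRange 4).map fun k => if k = g.k then
      ((q i, List.replicate g.m (a k)), (b k, [q i])) else ((q i, [a k]), (b k, [q i]))) ++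
    (List.range g.m).flatMap fun j =>
      ((q i, List.replicate j (a g.k) ++ [A]), (r i j, [A])) ::
      ((B, [r i j]), (B, q (g.nx j) :: List.replicate (g.d j) (a g.k))) ::
      (List.finRange 4).map fun k => if k = g.k then
        ((b k, [r i j]), (r i j, List.replicate g.l (a k))) else ((b k, [r i j]), (r i j, [a k]))

/-- all the relations -/
def rels (M : ℕ → Option (GI ℕ)) (N : ℕ) : List ((Lt × List Lt) × (Lt × List Lt)) :=
  ((List.finRange 4).flatMap fun k => (List.finRange 4).map fun k' =>
    ((a k, [a k']), (a k', [a k]))) ++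
  ((List.finRange 4).map fun k => ((h, [a k]), (h, []))) ++
  (List.range N).flatMap (relsOf M)

/-- the word of a pair -/
def comb (w : Lt × List Lt) : List Lt := w.1 :: w.2

section derivation
variable {Z : Type u} [Ring Z] (ζ : Lt → Z) {M : ℕ → Option (GI ℕ)} {N : ℕ}

/-- product of letters `a` -/
def aw (ws : List (Fin 4)) : Z := (ws.map fun k => ζ (a k)).prod
/-- product of letters `b` -/
def bw (ws : List (Fin 4)) : Z := (ws.map fun k => ζ (b k)).prod

theorem aw_append (ws ws' : List (Fin 4)) : aw ζ (ws ++ ws') = aw ζ ws * aw ζ ws' := by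
  simp [aw]

theorem aw_replicate (n : ℕ) (k : Fin 4) : aw ζ (List.replicate n k) = ζ (a k) ^ n := by
  simp [aw]

theorem mem_rels_comm (M : ℕ → Option (GI ℕ)) (N : ℕ) (k k' : Fin 4) :
    ((a k, [a k']), (a k', [a k])) ∈ rels M N := by
  unfold rels
  rw [List.mem_append, List.mem_append]
  left; left
  rw [List.mem_flatMap]
  exact ⟨k, List.mem_finRange k, List.mem_map.2 ⟨k', List.mem_finRange k', rfl⟩⟩

theorem mem_rels_h (M : ℕ → Option (GI ℕ)) (N : ℕ) (k : Fin 4) :
    ((h, [a k]), (h, [])) ∈ rels M N := by
  unfold rels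
  rw [List.mem_append, List.mem_append]
  left; right
  exact List.mem_map.2 ⟨k, List.mem_finRange k, rfl⟩

theorem mem_rels_of {i : ℕ} (hi : i < N) {p : (Lt × List Lt) × (Lt × List Lt)}
    (hp : p ∈ relsOf M i) : p ∈ rels M N := by
  unfold rels
  rw [List.mem_append]
  right
  rw [List.mem_flatMap]
  exact ⟨i, List.mem_range.2 hi, hp⟩

theorem mem_relsOf_none {i : ℕ} (hM : M i = none) : ((q i, []), (h, [])) ∈ relsOf M i := by
  unfold relsOf
  rw [hM]
  simp

theorem mem_relsOf_ne {i : ℕ} {g : GI ℕ} (hM : M i = some g) {k : Fin 4} (hk : k ≠ g.k) :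
    ((q i, [a k]), (b k, [q i])) ∈ relsOf M i := by
  unfold relsOf
  rw [hM]
  simp only [List.mem_append]
  left
  exact List.mem_map.2 ⟨k, List.mem_finRange k, by rw [if_neg hk]⟩

theorem mem_relsOf_eq {i : ℕ} {g : GI ℕ} (hM : M i = some g) :
    ((q i, List.replicate g.m (a g.k)), (b g.k, [q i])) ∈ relsOf M i := by
  unfold relsOf
  rw [hM]
  simp only [List.mem_append]
  left
  exact List.mem_map.2 ⟨g.k, List.mem_finRange _, by rw [if_pos rfl]⟩

theorem mem_relsOf_rem {i : ℕ} {g : GI ℕ} (hM : M i = some g) {j : ℕ} (hj : j < g.m) :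
    ((q i, List.replicate j (a g.k) ++ [A]), (r i j, [A])) ∈ relsOf M i := by
  unfold relsOf
  rw [hM]
  simp only [List.mem_append]
  right
  rw [List.mem_flatMap]
  exact ⟨j, List.mem_range.2 hj, by simp⟩

theorem mem_relsOf_nx {i : ℕ} {g : GI ℕ} (hM : M i = some g) {j : ℕ} (hj : j < g.m) :
    ((B, [r i j]), (B, q (g.nx j) :: List.replicate (g.d j) (a g.k))) ∈ relsOf M i := by
  unfold relsOf
  rw [hM]
  simp only [List.mem_append]
  right
  rw [List.mem_flatMap]
  exact ⟨j, List.mem_range.2 hj, by simp⟩

theorem mem_relsOf_back_ne {i : ℕ} {g : GI ℕ} (hM : M i = some g) {j : ℕ} (hj : j < g.m)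
    {k : Fin 4} (hk : k ≠ g.k) : ((b k, [r i j]), (r i j, [a k])) ∈ relsOf M i := by
  unfold relsOf
  rw [hM]
  simp only [List.mem_append]
  right
  rw [List.mem_flatMap]
  refine ⟨j, List.mem_range.2 hj, ?_⟩
  rw [List.mem_cons, List.mem_cons]
  right; right
  exact List.mem_map.2 ⟨k, List.mem_finRange _, by rw [if_neg hk]⟩

theorem mem_relsOf_back_eq {i : ℕ} {g : GI ℕ} (hM : M i = some g) {j : ℕ} (hj : j < g.m) :
    ((b g.k, [r i j]), (r i j, List.replicate g.l (a g.k))) ∈ relsOf M i := by
  unfold relsOf
  rw [hM]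
  simp only [List.mem_append]
  right
  rw [List.mem_flatMap]
  refine ⟨j, List.mem_range.2 hj, ?_⟩
  rw [List.mem_cons, List.mem_cons]
  right; right
  exact List.mem_map.2 ⟨g.k, List.mem_finRange _, by rw [if_pos rfl]⟩

/-- the relations hold for `ζ` -/
def Sat (M : ℕ → Option (GI ℕ)) (N : ℕ) : Prop :=
  ∀ p ∈ rels M N, ((comb p.1).map ζ).prod = ((comb p.2).map ζ).prod

variable {ζ}

theorem Sat.aw_perm (H : Sat ζ M N) {ws ws' : List (Fin 4)} (h : ws.Perm ws') :
    aw ζ ws = aw ζ ws' := by
  unfold aw
  apply List.Perm.prod_eq' (h.map _)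
  rw [List.pairwise_map]
  apply List.pairwise_of_forall
  intro k k'
  have := H _ (mem_rels_comm M N k k')
  simp only [comb, List.map_cons, List.map_nil, List.prod_cons, List.prod_nil, mul_one] at this
  exact this

theorem Sat.h_aw (H : Sat ζ M N) (ws : List (Fin 4)) : ζ Lt.h * aw ζ ws = ζ Lt.h := by
  induction ws with
  | nil => simp [aw]
  | cons k ws ih =>
    have h1 := H _ (mem_rels_h M N k)
    simp only [comb, List.map_cons, List.map_nil, List.prod_cons, List.prod_nil, mul_one] at h1
    have h2 : aw ζ (k :: ws) = ζ (a k) * aw ζ ws := by simp [aw]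
    rw [h2, ← mul_assoc, h1, ih]

theorem pass_list {s : Z} {f f' : Fin 4 → Z} (ws : List (Fin 4))
    (h : ∀ k ∈ ws, s * f k = f' k * s) : s * (ws.map f).prod = (ws.map f').prod * s := by
  induction ws with
  | nil => simp
  | cons k ws ih =>
    rw [List.map_cons, List.prod_cons, List.map_cons, List.prod_cons, ← mul_assoc, h k (by simp),
      mul_assoc, ih (fun k' hk' => h k' (by simp [hk'])), mul_assoc]

theorem Sat.derive (H : Sat ζ M N) (hcl : ∀ i g, M i = some g → 0 < g.m ∧ ∀ r, g.nx r < N)
    {i : ℕ} {R : Fin 4 → ℕ} (hh : Halts M i R) : i < N →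
      ∀ ws : List (Fin 4), (∀ k, ws.count k = R k) →
        ζ B * ζ (q i) * aw ζ ws * ζ A = ζ B * ζ Lt.h * ζ A := by
  induction hh with
  | @halt i R hM =>
    intro hi ws _
    have h1 := H _ (mem_rels_of hi (mem_relsOf_none hM))
    simp only [comb, List.map_cons, List.map_nil, List.prod_cons, List.prod_nil, mul_one] at h1
    rw [h1, mul_assoc (ζ B), H.h_aw]
  | @step i R g hM hh ih =>
    intro hi ws hws
    obtain ⟨hm, hnx⟩ := hcl i g hM
    set k := g.k with hk
    set t := R k / g.m with ht
    set j := R k % g.m with hj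
    have hjm : j < g.m := Nat.mod_lt _ hm
    set others := ws.filter (fun k' => k' ≠ k) with hoth
    have hcount_o : ∀ k', others.count k' = if k' = k then 0 else R k' := by
      intro k'
      by_cases hk' : k' = k
      · rw [if_pos hk', List.count_eq_zero, hoth]
        simp [hk']
      · rw [if_neg hk', hoth, List.count_filter (by simpa using hk'), hws]
    have hperm : ws.Perm (others ++ List.replicate (R k) k) := by
      rw [List.perm_iff_count]
      intro k'
      rw [List.count_append, hcount_o, hws, List.count_replicate]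
      by_cases hk' : k' = k
      · subst hk'
        simp
      · simp [hk', Ne.symm hk']
    have e1 : ζ (q i) * aw ζ others = bw ζ others * ζ (q i) := by
      apply pass_list
      intro k' hk'
      have hne : k' ≠ k := by
        rw [hoth, List.mem_filter] at hk'
        simpa using hk'.2
      have := H _ (mem_rels_of hi (mem_relsOf_ne hM hne))
      simpa [comb] using this
    have e2 : ζ (q i) * (ζ (a k) ^ g.m) ^ t = ζ (b k) ^ t * ζ (q i) := by
      have h1 : SemiconjBy (ζ (q i)) (ζ (a k) ^ g.m) (ζ (b k)) := by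
        have := H _ (mem_rels_of hi (mem_relsOf_eq hM))
        simpa [comb, SemiconjBy] using this
      exact h1.pow_right t
    have e3 : ζ (q i) * ζ (a k) ^ j * ζ A = ζ (r i j) * ζ A := by
      have := H _ (mem_rels_of hi (mem_relsOf_rem hM hjm))
      simp only [comb, List.map_cons, List.map_append, List.map_replicate, List.map_nil,
        List.prod_cons, List.prod_append, List.prod_replicate, List.prod_nil, mul_one] at this
      rw [mul_assoc]
      exact this
    have e4 : ζ (r i j) * aw ζ others = bw ζ others * ζ (r i j) := by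
      apply pass_list
      intro k' hk'
      have hne : k' ≠ k := by
        rw [hoth, List.mem_filter] at hk'
        simpa using hk'.2
      have := H _ (mem_rels_of hi (mem_relsOf_back_ne hM hjm hne))
      simp only [comb, List.map_cons, List.map_nil, List.prod_cons, List.prod_nil, mul_one] at this
      exact this.symm
    have e5 : ζ (r i j) * (ζ (a k) ^ g.l) ^ t = ζ (b k) ^ t * ζ (r i j) := by
      have h1 : SemiconjBy (ζ (r i j)) (ζ (a k) ^ g.l) (ζ (b k)) := by
        have := H _ (mem_rels_of hi (mem_relsOf_back_eq hM hjm))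
        simp only [comb, List.map_cons, List.map_replicate, List.map_nil,
          List.prod_cons, List.prod_replicate, List.prod_nil, mul_one] at this
        exact this.symm
      exact h1.pow_right t
    have e6 : ζ B * ζ (r i j) = ζ B * ζ (q (g.nx j)) * ζ (a k) ^ g.d j := by
      have := H _ (mem_rels_of hi (mem_relsOf_nx hM hjm))
      simp only [comb, List.map_cons, List.map_replicate, List.map_nil,
        List.prod_cons, List.prod_replicate, List.prod_nil, mul_one] at this
      rw [this, mul_assoc]
    have e7 : ζ (a k) ^ R k = (ζ (a k) ^ g.m) ^ t * ζ (a k) ^ j := by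
      rw [← pow_mul, ← pow_add, ht, hj, Nat.div_add_mod]
    have hIH := ih (hnx _) (List.replicate (g.d j) k ++ others ++ List.replicate (g.l * t) k) (by
      intro k'
      rw [List.count_append, List.count_append, hcount_o, List.count_replicate,
        List.count_replicate, GI.upd]
      by_cases hk' : k' = k
      · have e8 : R g.k / g.m = t := rfl
        have e9 : R g.k % g.m = j := rfl
        rw [hk', ← hk, Function.update_self, hk, e8, e9]
        simp only [beq_self_eq_true, if_true]
        omega
      · rw [Function.update_of_ne hk']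
        simp [hk', Ne.symm hk'])
    rw [aw_append, aw_append, aw_replicate, aw_replicate, pow_mul] at hIH
    calc ζ B * ζ (q i) * aw ζ ws * ζ A
        = ζ B * (ζ (q i) * aw ζ others) * ((ζ (a k) ^ g.m) ^ t * ζ (a k) ^ j) * ζ A := by
          rw [H.aw_perm hperm, aw_append, aw_replicate, e7]
          simp only [mul_assoc]
      _ = ζ B * bw ζ others * (ζ (q i) * (ζ (a k) ^ g.m) ^ t) * ζ (a k) ^ j * ζ A := by
          rw [e1]
          simp only [mul_assoc]
      _ = ζ B * bw ζ others * ζ (b k) ^ t * (ζ (q i) * ζ (a k) ^ j * ζ A) := by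
          rw [e2]
          simp only [mul_assoc]
      _ = ζ B * bw ζ others * (ζ (b k) ^ t * ζ (r i j)) * ζ A := by
          rw [e3]
          simp only [mul_assoc]
      _ = ζ B * (bw ζ others * ζ (r i j)) * (ζ (a k) ^ g.l) ^ t * ζ A := by
          rw [← e5]
          simp only [mul_assoc]
      _ = ζ B * ζ (r i j) * aw ζ others * (ζ (a k) ^ g.l) ^ t * ζ A := by
          rw [← e4]
          simp only [mul_assoc]
      _ = ζ B * ζ Lt.h * ζ A := by
          rw [e6, ← hIH]
          simp only [mul_assoc]

end derivation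

end Pool.Agent.Lib.MP_79b5eb_lc
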