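import Pool.Agent.Lib.MP_79b5eb_lc.Letters

/-!
The representation by matrices over a polynomial ring and the linear functional.
-/

set_option autoImplicit false

universe u

namespace Pool.Agent.Lib.MP_79b5eb_lc

open MvPolynomial Classical

/-- multiplicities of letters -/
noncomputable def cnt (w : List Lt) : Lt →₀ ℕ := (w.map fun l => Finsupp.single l 1).sum

theorem cnt_nil : cnt [] = 0 := rfl

theorem cnt_cons (l : Lt) (w : List Lt) : cnt (l :: w) = Finsupp.single l 1 + cnt w := by
  simp [cnt]

theorem cnt_apply (w : List Lt) (l : Lt) : cnt w l = w.count l := by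
  induction w with
  | nil => simp [cnt]
  | cons l' w ih =>
    rw [cnt_cons, Finsupp.add_apply, ih, List.count_cons, Finsupp.single_apply, add_comm]
    congr 1
    by_cases h : l' = l <;> simp [h]

theorem cnt_sum {R : Type u} [CommSemiring R] (w : List Lt) (f : Lt → R) :
    (cnt w).sum (fun l c => (c : R) * f l) = (w.map f).sum := by
  induction w with
  | nil => simp [cnt]
  | cons l w ih =>
    rw [cnt_cons, Finsupp.sum_add_index' (by simp) (by intros; push_cast; ring), ih,
      Finsupp.sum_single_index (by simp)]
    simp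

theorem cnt_sum_nat (w : List Lt) :
    (cnt w).sum (fun l c => c * spl l) = spec w := by
  have := cnt_sum (R := ℕ) w spl
  simpa [spec] using this

/-- numbers of the letters `a_k` -/
def ca (w : List Lt) : Fin 4 → ℕ := fun k => w.count (Lt.a k)
/-- numbers of the letters `b_k` -/
def cb (w : List Lt) : Fin 4 → ℕ := fun k => w.count (Lt.b k)

section
variable (F : Type u) [Field F]

/-- matrices of the letters -/
noncomputable def rho0 (l : Lt) : Matrix (Fin 3) (Fin 3) (MvPolynomial Lt F) :=
  Matrix.single (src l) (tgt l) (X l)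

theorem rho0_word (w : List Lt) : ∀ i j, (w.map (rho0 F)).prod i j =
    if path w i j then monomial (cnt w) (1 : F) else 0 := by
  induction w with
  | nil =>
    intro i j
    simp only [List.map_nil, List.prod_nil, path, cnt_nil, Matrix.one_apply]
    rfl
  | cons l w ih =>
    intro i j
    rw [List.map_cons, List.prod_cons, Matrix.mul_apply]
    simp only [ih, rho0, Matrix.single_apply]
    rw [Finset.sum_eq_single (tgt l)]
    · by_cases h : i = src l
      · subst h
        by_cases h2 : path w (tgt l) j
        · rw [if_pos ⟨rfl, rfl⟩, if_pos h2, if_pos ⟨rfl, h2⟩, cnt_cons, X, monomial_mul, one_mul]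
        · have e1 : ¬ path (l :: w) (src l) j := fun h => h2 h.2
          rw [if_neg e1, if_neg h2, mul_zero]
      · have e1 : ¬ path (l :: w) i j := fun h' => h h'.1
        have e2 : ¬ (src l = i ∧ tgt l = tgt l) := fun h' => h h'.1.symm
        rw [if_neg e1, if_neg e2, zero_mul]
    · intro k _ hk
      rw [if_neg (fun h => hk h.2.symm), zero_mul]
    · intro h
      exact absurd (Finset.mem_univ _) h

/-- the representation of the free algebra -/
noncomputable def rho : MonoidAlgebra F (FreeMonoid Lt) →ₐ[F]
    Matrix (Fin 3) (Fin 3) (MvPolynomial Lt F) :=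
  MonoidAlgebra.lift F _ (FreeMonoid Lt) (FreeMonoid.lift (rho0 F))

theorem rho_of (w : List Lt) : rho F (MonoidAlgebra.of F (FreeMonoid Lt) (FreeMonoid.ofList w)) =
    (w.map (rho0 F)).prod := by
  unfold rho
  rw [MonoidAlgebra.lift_of]
  rw [FreeMonoid.lift_apply]
  rfl

variable (M : ℕ → Option (GI ℕ))

/-- truth value -/
noncomputable def ind (P : Prop) : F := if P then 1 else 0

/-- registers after the pass of the state letter `q i` -/
def R1 (g : GI ℕ) (β α : Fin 4 → ℕ) : Fin 4 → ℕ :=
  Function.update (β + α) g.k (g.l * (β g.k + α g.k / g.m) + g.d (α g.k % g.m))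

/-- registers after the pass of the state letter `r i j` -/
def R2 (g : GI ℕ) (j : ℕ) (β α : Fin 4 → ℕ) : Fin 4 → ℕ :=
  Function.update (β + α) g.k (g.l * β g.k + α g.k + g.d j)

/-- values of state letters -/
noncomputable def vl : Lt → (Fin 4 → ℕ) → (Fin 4 → ℕ) → F
  | Lt.h, _, _ => 1
  | Lt.q i, β, α =>
    match M i with
    | none => 1
    | some g => ind F (Halts M (g.nx (α g.k % g.m)) (R1 g β α))
  | Lt.r i j, β, α =>
    match M i with
    | none => 0
    | some g => ind F (Halts M (g.nx j) (R2 g j β α))
  | _, _, _ => 0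

/-- the functional on monomials -/
noncomputable def phi (m : Lt →₀ ℕ) : F :=
  if m.sum (fun l c => c * spl l) = 3 then
    m.sum (fun l c => (c : F) * vl F M l (fun k => m (Lt.b k)) (fun k => m (Lt.a k)))
  else 0

/-- the functional on words -/
noncomputable def Psi (w : List Lt) : F :=
  if path w 0 0 ∧ spec w = 3 then (w.map fun l => vl F M l (cb w) (ca w)).sum else 0

/-- the functional on polynomials -/
noncomputable def lam : MvPolynomial Lt F →ₗ[F] F :=
  (MvPolynomial.basisMonomials Lt F).constr F (phi F M)

theorem lam_monomial (m : Lt →₀ ℕ) : lam F M (monomial m 1) = phi F M m := by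
  have h := (MvPolynomial.basisMonomials Lt F).constr_basis F (phi F M) m
  rwa [MvPolynomial.coe_basisMonomials] at h

/-- the functional on the free algebra -/
noncomputable def Phi : MonoidAlgebra F (FreeMonoid Lt) →ₗ[F] F where
  toFun t := lam F M (rho F t 0 0)
  map_add' s t := by simp
  map_smul' c t := by simp

theorem Phi_of (w : List Lt) :
    Phi F M (MonoidAlgebra.of F (FreeMonoid Lt) (FreeMonoid.ofList w)) = Psi F M w := by
  show lam F M (rho F _ 0 0) = _
  rw [rho_of, rho0_word]
  unfold Psi
  by_cases h : path w 0 0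
  · rw [if_pos h, lam_monomial, phi, cnt_sum_nat]
    by_cases h3 : spec w = 3
    · rw [if_pos h3, if_pos ⟨h, h3⟩, cnt_sum]
      simp only [cnt_apply]
      rfl
    · rw [if_neg h3, if_neg (fun h' => h3 h'.2)]
  · rw [if_neg h, if_neg (fun h' => h h'.1), map_zero]

end

end Pool.Agent.Lib.MP_79b5eb_lc
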