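import Pool.Agent.Lib.MP_79b5eb_lc.Alg

/-!
The witness algebra satisfies the standard identities of degree at least `6`.
-/

set_option autoImplicit false

universe u

namespace Pool.Agent.Lib.MP_79b5eb_lc

open MvPolynomial Classical

theorem multilinear_zero_of_span {F V V' : Type u} [Field F] [AddCommGroup V] [Module F V]
    [AddCommGroup V'] [Module F V'] {n : ℕ} (f : MultilinearMap F (fun _ : Fin n => V) V')
    (S : Set V) (h : ∀ v : Fin n → V, (∀ i, v i ∈ S) → f v = 0) :
    ∀ v : Fin n → V, (∀ i, v i ∈ Submodule.span F S) → f v = 0 := by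
  have key : ∀ s : Finset (Fin n), ∀ v : Fin n → V, (∀ i ∈ s, v i ∈ Submodule.span F S) →
      (∀ i, i ∉ s → v i ∈ S) → f v = 0 := by
    intro s
    induction s using Finset.induction with
    | empty => intro v _ h2; exact h v fun i => h2 i (by simp)
    | insert a s ha ih =>
      intro v h1 h2
      have h3 : ∀ x ∈ Submodule.span F S, f (Function.update v a x) = 0 := by
        intro x hx
        induction hx using Submodule.span_induction with
        | mem x hx =>
          apply ih
          · intro i hi
            have : i ≠ a := fun h => ha (h ▸ hi)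
            rw [Function.update_of_ne this]
            exact h1 i (Finset.mem_insert_of_mem hi)
          · intro i hi
            by_cases hia : i = a
            · subst hia
              rw [Function.update_self]
              exact hx
            · rw [Function.update_of_ne hia]
              exact h2 i (by simp [hia, hi])
        | zero => exact f.map_update_zero v a
        | add x y _ _ hx hy => rw [f.map_update_add, hx, hy, add_zero]
        | smul c x _ hx => rw [f.map_update_smul, hx, smul_zero]
      have h4 := h3 (v a) (h1 a (Finset.mem_insert_self _ _))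
      rwa [Function.update_eq_self] at h4
  intro v hv
  exact key Finset.univ v (fun i _ => hv i) (fun i hi => absurd (Finset.mem_univ i) hi)

/-- words in the letters `b_k` -/
def isB (w : List Lt) : Prop := ∀ l ∈ w, ∃ k, l = Lt.b k
/-- words in the letters `a_k` -/
def isA (w : List Lt) : Prop := ∀ l ∈ w, ∃ k, l = Lt.a k

theorem path_isB {w : List Lt} (h : isB w) : ∀ p q, path w p q → (w = [] ∧ p = q) ∨ (p = 1 ∧ q = 1) := by
  induction w with
  | nil => intro p q h; exact Or.inl ⟨rfl, h⟩
  | cons l w ih =>
    rintro p q ⟨h1, h2⟩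
    obtain ⟨k, rfl⟩ := h l (by simp)
    right
    refine ⟨h1, ?_⟩
    rcases ih (fun l' hl' => h l' (by simp [hl'])) _ _ h2 with ⟨_, h3⟩ | h3
    · exact h3.symm
    · exact h3.2

theorem isB_path {w : List Lt} (h : isB w) : path w 1 1 := by
  induction w with
  | nil => rfl
  | cons l w ih =>
    obtain ⟨k, rfl⟩ := h l (by simp)
    exact ⟨rfl, ih fun l' hl' => h l' (by simp [hl'])⟩

theorem path_isA {w : List Lt} (h : isA w) : ∀ p q, path w p q → (w = [] ∧ p = q) ∨ (p = 2 ∧ q = 2) := by
  induction w with
  | nil => intro p q h; exact Or.inl ⟨rfl, h⟩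
  | cons l w ih =>
    rintro p q ⟨h1, h2⟩
    obtain ⟨k, rfl⟩ := h l (by simp)
    right
    refine ⟨h1, ?_⟩
    rcases ih (fun l' hl' => h l' (by simp [hl'])) _ _ h2 with ⟨_, h3⟩ | h3
    · exact h3.symm
    · exact h3.2

theorem isA_path {w : List Lt} (h : isA w) : path w 2 2 := by
  induction w with
  | nil => rfl
  | cons l w ih =>
    obtain ⟨k, rfl⟩ := h l (by simp)
    exact ⟨rfl, ih fun l' hl' => h l' (by simp [hl'])⟩

theorem path_same {w w' : List Lt} (hw : w ≠ []) (hw' : w' ≠ [])
    (h : (isB w ∧ isB w') ∨ (isA w ∧ isA w')) (p q : Fin 3) : path w p q ↔ path w' p q := by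
  rcases h with ⟨h1, h2⟩ | ⟨h1, h2⟩
  · constructor
    · intro h
      rcases path_isB h1 p q h with h3 | ⟨rfl, rfl⟩
      · exact absurd h3.1 hw
      · exact isB_path h2
    · intro h
      rcases path_isB h2 p q h with h3 | ⟨rfl, rfl⟩
      · exact absurd h3.1 hw'
      · exact isB_path h1
  · constructor
    · intro h
      rcases path_isA h1 p q h with h3 | ⟨rfl, rfl⟩
      · exact absurd h3.1 hw
      · exact isA_path h2
    · intro h
      rcases path_isA h2 p q h with h3 | ⟨rfl, rfl⟩
      · exact absurd h3.1 hw'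
      · exact isA_path h1

theorem path_flatten (L : List (List Lt)) : ∀ p q, path L.flatten p q →
    ∀ w ∈ L, ∃ p' q', path w p' q' := by
  induction L with
  | nil => intro p q _ w hw; simp at hw
  | cons w' L ih =>
    intro p q h w hw
    rw [List.flatten_cons, path_append] at h
    obtain ⟨k, h1, h2⟩ := h
    rcases List.mem_cons.1 hw with rfl | hw
    · exact ⟨_, _, h1⟩
    · exact ih _ _ h2 w hw

theorem spec_flatten (L : List (List Lt)) : spec L.flatten = (L.map spec).sum := by
  induction L with
  | nil => rfl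
  | cons w L ih => rw [List.flatten_cons, spec_append, ih, List.map_cons, List.sum_cons]

section
variable (F : Type u) [Field F] (M : ℕ → Option (GI ℕ))

theorem wo_flatten (L : List (List Lt)) : (L.map (wo F)).prod = wo F L.flatten := by
  induction L with
  | nil => simp [wo_nil]
  | cons w L ih => rw [List.map_cons, List.prod_cons, ih, List.flatten_cons, wo_append]

/-- the standard polynomial in a unital algebra, as an alternating map -/
noncomputable def stdAlt (n : ℕ) (R A : Type u) [CommRing R] [Ring A] [Algebra R A] :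
    A [⋀^Fin n]→ₗ[R] A :=
  MultilinearMap.alternatization (MultilinearMap.mkPiAlgebraFin R n A)

theorem stdAlt_apply (n : ℕ) (R A : Type u) [CommRing R] [Ring A] [Algebra R A] (v : Fin n → A) :
    stdAlt n R A v = ∑ σ : Equiv.Perm (Fin n),
      ((Equiv.Perm.sign σ : ℤˣ) : ℤ) • (List.ofFn fun i => v (σ i)).prod := by
  unfold stdAlt
  rw [MultilinearMap.alternatization_apply]
  apply Finset.sum_congr rfl
  intro σ _
  rw [Units.smul_def]
  rfl

/-- the standard polynomial vanishes on nonempty words -/
theorem std_words {n : ℕ} (hn : 6 ≤ n) (w : Fin n → List Lt) (hw : ∀ i, w i ≠ []) :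
    ∑ σ : Equiv.Perm (Fin n), ((Equiv.Perm.sign σ : ℤˣ) : ℤ) •
      (List.ofFn fun i => prj F M (wo F (w (σ i)))).prod = 0 := by
  have h0 : ∑ σ : Equiv.Perm (Fin n), ((Equiv.Perm.sign σ : ℤˣ) : ℤ) •
      (List.ofFn fun i => prj F M (wo F (w (σ i)))).prod =
      prj F M (∑ σ : Equiv.Perm (Fin n), ((Equiv.Perm.sign σ : ℤˣ) : ℤ) •
        (List.ofFn fun i => wo F (w (σ i))).prod) := by
    rw [map_sum]
    apply Finset.sum_congr rfl
    intro σ _
    rw [map_zsmul, map_list_prod, List.map_ofFn]
    rfl
  rw [h0, ← map_zero (prj F M)]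
  by_cases hc : ∃ i j, i ≠ j ∧ ((isB (w i) ∧ isB (w j)) ∨ (isA (w i) ∧ isA (w j)))
  · obtain ⟨i, j, hij, hc⟩ := hc
    -- the matrices
    have h1 : rho F (∑ σ : Equiv.Perm (Fin n), ((Equiv.Perm.sign σ : ℤˣ) : ℤ) •
        (List.ofFn fun i => wo F (w (σ i))).prod) = 0 := by
      rw [map_sum]
      have h2 : ∀ σ : Equiv.Perm (Fin n), rho F (((Equiv.Perm.sign σ : ℤˣ) : ℤ) •
          (List.ofFn fun i => wo F (w (σ i))).prod) = ((Equiv.Perm.sign σ : ℤˣ) : ℤ) •
          (List.ofFn fun i => rho F (wo F (w (σ i)))).prod := by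
        intro σ
        rw [map_zsmul, map_list_prod, List.map_ofFn]
        rfl
      rw [Finset.sum_congr rfl fun σ _ => h2 σ]
      rw [← stdAlt_apply n (MvPolynomial Lt F) (Matrix (Fin 3) (Fin 3) (MvPolynomial Lt F))
        (fun i => rho F (wo F (w i)))]
      have h3 : (fun i => rho F (wo F (w i))) = fun i =>
          (monomial (cnt (w i)) (1 : F)) •
            (Matrix.of fun p q => if path (w i) p q then 1 else 0 :
              Matrix (Fin 3) (Fin 3) (MvPolynomial Lt F)) := by
        funext i
        ext1 p q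
        unfold wo
        rw [rho_of, rho0_word, Matrix.smul_apply, Matrix.of_apply]
        split_ifs
        · rw [smul_eq_mul, mul_one]
        · rw [smul_eq_mul, mul_zero]
      rw [h3]
      rw [← AlternatingMap.coe_multilinearMap, MultilinearMap.map_smul_univ,
        AlternatingMap.coe_multilinearMap,
        AlternatingMap.map_eq_zero_of_eq _ _ (i := i) (j := j) _ hij, smul_zero]
      ext1 p q
      simp only [Matrix.of_apply, path_same (hw i) (hw j) hc]
    rw [prj_eq_iff]
    intro x y
    show lam F M (rho F _ 0 0) = lam F M (rho F _ 0 0)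
    rw [map_mul, map_mul, h1, mul_zero, mul_zero, zero_mul, zero_mul, map_zero]
  · apply Phi_words
    intro x y
    rw [mul_zero, zero_mul, map_zero, Finset.mul_sum, Finset.sum_mul, map_sum]
    apply Finset.sum_eq_zero
    intro σ _
    have h1 : (List.ofFn fun i => wo F (w (σ i))).prod =
        wo F (List.ofFn fun i => w (σ i)).flatten := by
      rw [← wo_flatten, List.map_ofFn]
      rfl
    rw [h1, mul_smul_comm, smul_mul_assoc, map_zsmul, ← wo_append, ← wo_append, Phi_wo]
    have h2 : Psi F M (x ++ (List.ofFn fun i => w (σ i)).flatten ++ y) = 0 := by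
      unfold Psi
      rw [if_neg]
      rintro ⟨hp, hs⟩
      rw [spec_append, spec_append, spec_flatten, List.map_ofFn, List.sum_ofFn] at hs
      have h3 : ∑ i, (spec ∘ fun i => w (σ i)) i = ∑ i, spec (w i) :=
        Equiv.sum_comp σ fun i => spec (w i)
      rw [h3] at hs
      rw [path_append] at hp
      obtain ⟨k, hp, _⟩ := hp
      rw [path_append] at hp
      obtain ⟨k', _, hp⟩ := hp
      have h4 : ∀ i, ∃ p q, path (w i) p q := by
        intro i
        apply path_flatten _ _ _ hp
        rw [List.mem_ofFn]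
        exact ⟨σ.symm i, by simp⟩
      set T := (Finset.univ : Finset (Fin n)).filter fun i => spec (w i) = 0 with hT
      have hTc : T ⊆ (Finset.univ.filter fun i => isB (w i)) ∪
          (Finset.univ.filter fun i => isA (w i)) := by
        intro i hi
        rw [hT, Finset.mem_filter] at hi
        obtain ⟨p, q, hpq⟩ := h4 i
        have h5 := path_spec_zero (w i) p q hpq hi.2
        rw [Finset.mem_union, Finset.mem_filter, Finset.mem_filter]
        have h6 : p = 0 ∨ p = 1 ∨ p = 2 := by
          fin_cases p <;> simp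
        rcases h6 with h6 | h6 | h6
        · exact absurd (h5.2.1 h6) (hw i)
        · exact Or.inl ⟨Finset.mem_univ _, h5.2.2.1 h6⟩
        · exact Or.inr ⟨Finset.mem_univ _, h5.2.2.2 h6⟩
      have hB : (Finset.univ.filter fun i => isB (w i)).card ≤ 1 := by
        rw [Finset.card_le_one]
        intro i hi j hj
        by_contra hij
        exact hc ⟨i, j, hij, Or.inl ⟨(Finset.mem_filter.1 hi).2, (Finset.mem_filter.1 hj).2⟩⟩
      have hA : (Finset.univ.filter fun i => isA (w i)).card ≤ 1 := by
        rw [Finset.card_le_one]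
        intro i hi j hj
        by_contra hij
        exact hc ⟨i, j, hij, Or.inr ⟨(Finset.mem_filter.1 hi).2, (Finset.mem_filter.1 hj).2⟩⟩
      have hTcard : T.card ≤ 2 := by
        refine (Finset.card_le_card hTc).trans ((Finset.card_union_le _ _).trans ?_)
        omega
      have h7 : (Finset.univ \ T).card ≤ ∑ i, spec (w i) := by
        calc (Finset.univ \ T).card = ∑ i ∈ Finset.univ \ T, 1 := by simp
          _ ≤ ∑ i ∈ Finset.univ \ T, spec (w i) := by
            apply Finset.sum_le_sum
            intro i hi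
            rw [Finset.mem_sdiff, hT, Finset.mem_filter] at hi
            have : spec (w i) ≠ 0 := fun h => hi.2 ⟨Finset.mem_univ _, h⟩
            omega
          _ ≤ ∑ i, spec (w i) :=
            Finset.sum_le_sum_of_subset (Finset.subset_univ _)
      have h8 : (Finset.univ \ T).card = n - T.card := by
        rw [Finset.card_sdiff_of_subset (Finset.subset_univ _), Finset.card_univ, Fintype.card_fin]
      omega
    rw [h2, smul_zero]

/-- the non-unital witness algebra -/
noncomputable def W2 : NonUnitalSubalgebra F (W1 F M) :=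
  NonUnitalAlgebra.adjoin F (Set.range fun l : Lt => prj F M (wo F [l]))

theorem inM_W2 [Infinite F] {n : ℕ} (hn : 3 ≤ n) : InM F n (W2 F M) := by
  intro p hp v
  apply Subtype.ext
  have h1 := evalP_map (NonUnitalSubalgebraClass.subtype (W2 F M)) v p
  exact h1.trans (inM_W1 F M hn p hp _)

theorem closure_word {x : W1 F M}
    (hx : x ∈ Subsemigroup.closure (Set.range fun l : Lt => prj F M (wo F [l]))) :
    ∃ w : List Lt, w ≠ [] ∧ x = prj F M (wo F w) := by
  induction hx using Subsemigroup.closure_induction with
  | mem x hx =>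
    obtain ⟨l, rfl⟩ := hx
    exact ⟨[l], by simp, rfl⟩
  | mul x y _ _ hx hy =>
    obtain ⟨w, hw, rfl⟩ := hx
    obtain ⟨w', hw', rfl⟩ := hy
    exact ⟨w ++ w', by simp [hw], by rw [wo_append, map_mul]⟩

theorem inS_W2 {n : ℕ} (hn : 6 ≤ n) : InS n (W2 F M) := by
  intro v
  apply Subtype.ext
  have h1 : ∀ L : List ℕ, L ≠ [] → ((lval v L : W2 F M) : W1 F M) =
      (L.map fun j => (v j : W1 F M)).prod := by
    intro L hL
    cases L with
    | nil => exact absurd rfl hL
    | cons i l =>
      rw [← wval_eq_prod]
      exact wval_map (fun x : W2 F M => (x : W1 F M)) (fun _ _ => rfl) v i l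
  have h2 : ((∑ σ : Equiv.Perm (Fin n), ((Equiv.Perm.sign σ : ℤˣ) : ℤ) •
      lval v (List.ofFn fun i => ((σ i : Fin n) : ℕ)) : W2 F M) : W1 F M) =
      ∑ σ : Equiv.Perm (Fin n), ((Equiv.Perm.sign σ : ℤˣ) : ℤ) •
        (List.ofFn fun i => (v ((σ i : Fin n) : ℕ) : W1 F M)).prod := by
    rw [AddSubmonoidClass.coe_finsetSum]
    apply Finset.sum_congr rfl
    intro σ _
    have h3 : ((((Equiv.Perm.sign σ : ℤˣ) : ℤ) •
        lval v (List.ofFn fun i => ((σ i : Fin n) : ℕ)) : W2 F M) : W1 F M) =
        ((Equiv.Perm.sign σ : ℤˣ) : ℤ) •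
          ((lval v (List.ofFn fun i => ((σ i : Fin n) : ℕ)) : W2 F M) : W1 F M) := rfl
    rw [h3, h1, List.map_ofFn]
    · rfl
    · intro h
      have := congrArg List.length h
      simp at this
      omega
  rw [h2, ← stdAlt_apply n F (W1 F M) (fun i => (v (i : ℕ) : W1 F M))]
  show stdAlt n F (W1 F M) (fun i => (v (i : ℕ) : W1 F M)) = 0
  rw [← AlternatingMap.coe_multilinearMap]
  apply multilinear_zero_of_span (S := (Subsemigroup.closure
    (Set.range fun l : Lt => prj F M (wo F [l])) : Set (W1 F M)))
  · intro x hx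
    choose w hw hxw using fun i => closure_word F M (hx i)
    rw [AlternatingMap.coe_multilinearMap, stdAlt_apply]
    have : x = fun i => prj F M (wo F (w i)) := funext hxw
    rw [this]
    exact std_words F M hn w hw
  · intro i
    have h3 : (v (i : ℕ) : W1 F M) ∈ (W2 F M).toSubmodule := (v (i : ℕ)).2
    unfold W2 at h3
    rwa [NonUnitalAlgebra.adjoin_eq_span] at h3

end

end Pool.Agent.Lib.MP_79b5eb_lc
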