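import Pool.Agent.Lib.MP_79b5eb_lc.Rel

/-!
The relations hold in the witness algebra.
-/

set_option autoImplicit false

universe u

namespace Pool.Agent.Lib.MP_79b5eb_lc

open Lt

theorem ca_append (w w' : List Lt) : ca (w ++ w') = ca w + ca w' := by
  funext k
  simp [ca, List.count_append]

theorem cb_append (w w' : List Lt) : cb (w ++ w') = cb w + cb w' := by
  funext k
  simp [cb, List.count_append]

theorem ca_isB {w : List Lt} (h : isB w) : ca w = 0 := by
  funext k
  simp only [ca, Pi.zero_apply]
  rw [List.count_eq_zero]
  intro hk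
  obtain ⟨k', hk'⟩ := h _ hk
  exact absurd hk' (by simp)

theorem cb_isA {w : List Lt} (h : isA w) : cb w = 0 := by
  funext k
  simp only [cb, Pi.zero_apply]
  rw [List.count_eq_zero]
  intro hk
  obtain ⟨k', hk'⟩ := h _ hk
  exact absurd hk' (by simp)

section
variable (F : Type u) [Field F] (M : ℕ → Option (GI ℕ))

/-- sum of the values of the letters -/
noncomputable def sumv (w : List Lt) (β α : Fin 4 → ℕ) : F := (w.map fun l => vl F M l β α).sum

theorem sumv_append (w w' : List Lt) (β α : Fin 4 → ℕ) :
    sumv F M (w ++ w') β α = sumv F M w β α + sumv F M w' β α := by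
  simp [sumv]

theorem sumv_cons (l : Lt) (w : List Lt) (β α : Fin 4 → ℕ) :
    sumv F M (l :: w) β α = vl F M l β α + sumv F M w β α := by
  simp [sumv]

theorem sumv_nil (β α : Fin 4 → ℕ) : sumv F M [] β α = 0 := rfl

theorem sumv_isB {w : List Lt} (h : isB w) (β α : Fin 4 → ℕ) : sumv F M w β α = 0 := by
  induction w with
  | nil => rfl
  | cons l w ih =>
    obtain ⟨k, rfl⟩ := h l (by simp)
    rw [sumv_cons, ih fun l' hl' => h l' (by simp [hl'])]
    simp [vl]

theorem sumv_isA {w : List Lt} (h : isA w) (β α : Fin 4 → ℕ) : sumv F M w β α = 0 := by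
  induction w with
  | nil => rfl
  | cons l w ih =>
    obtain ⟨k, rfl⟩ := h l (by simp)
    rw [sumv_cons, ih fun l' hl' => h l' (by simp [hl'])]
    simp [vl]

theorem Psi_eq (w : List Lt) [Decidable (path w 0 0 ∧ spec w = 3)] :
    Psi F M w = if path w 0 0 ∧ spec w = 3 then sumv F M w (cb w) (ca w) else 0 := by
  unfold Psi sumv
  split_ifs <;> rfl

theorem psi_congr12 {w w' : List Lt} (hp : ∀ p q, path w p q ↔ p = 1 ∧ q = 2)
    (hp' : ∀ p q, path w' p q ↔ p = 1 ∧ q = 2) (hs : spec w = 1) (hs' : spec w' = 1)
    (hv : ∀ β α, sumv F M w (β + cb w) (α + ca w) = sumv F M w' (β + cb w') (α + ca w'))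
    (x y : List Lt) : Psi F M (x ++ w ++ y) = Psi F M (x ++ w' ++ y) := by
  classical
  have key : ∀ v : List Lt, (∀ p q, path v p q ↔ p = 1 ∧ q = 2) → spec v = 1 →
      Psi F M (x ++ v ++ y) = if path x 0 1 ∧ path y 2 0 ∧ spec x = 1 ∧ spec y = 1 then
        sumv F M v ((cb x + cb y) + cb v) ((ca x + ca y) + ca v) else 0 := by
    intro v hpv hsv
    rw [Psi_eq]
    have h1 : (path (x ++ v ++ y) 0 0 ∧ spec (x ++ v ++ y) = 3) ↔
        (path x 0 1 ∧ path y 2 0 ∧ spec x = 1 ∧ spec y = 1) := by
      rw [path_append, spec_append, spec_append, hsv]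
      constructor
      · rintro ⟨⟨k, h1, h2⟩, h3⟩
        rw [path_append] at h1
        obtain ⟨k', h4, h5⟩ := h1
        rw [hpv] at h5
        obtain ⟨rfl, rfl⟩ := h5
        have h6 := (left_decomp h4).1
        have h7 := (right_decomp y h2).1
        exact ⟨h4, h2, by omega, by omega⟩
      · rintro ⟨h1, h2, h3, h4⟩
        refine ⟨⟨2, ?_, h2⟩, by omega⟩
        rw [path_append]
        exact ⟨1, h1, (hpv 1 2).2 ⟨rfl, rfl⟩⟩
    by_cases hC : path x 0 1 ∧ path y 2 0 ∧ spec x = 1 ∧ spec y = 1
    · rw [if_pos hC, if_pos (h1.2 hC)]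
      obtain ⟨hx, hy, hsx, hsy⟩ := hC
      obtain ⟨x', rfl, hx'⟩ := (left_decomp hx).2 hsx
      obtain ⟨y', rfl, hy'⟩ := (right_decomp y hy).2 hsy
      rw [cb_append, cb_append, ca_append, ca_append, sumv_append, sumv_append, sumv_append,
        sumv_cons, sumv_isB F M hx', sumv_isA F M hy']
      have h2 : ∀ β α, sumv F M [A] β α = 0 := by
        intro β α
        simp [sumv, vl]
      have h3 : ∀ β α, vl F M B β α = 0 := by
        intro β α
        simp [vl]
      rw [h2, h3]
      simp only [zero_add, add_zero]
      congr 1 <;> abel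
    · rw [if_neg hC, if_neg (fun h => hC (h1.1 h))]
  rw [key w hp hs, key w' hp' hs']
  split_ifs
  · exact hv _ _
  · rfl

theorem psi_congr10 {w w' : List Lt} (hp : ∀ p q, path w p q ↔ p = 1 ∧ q = 0)
    (hp' : ∀ p q, path w' p q ↔ p = 1 ∧ q = 0) (hs : spec w = 2) (hs' : spec w' = 2)
    (hv : ∀ β, sumv F M w (β + cb w) (ca w) = sumv F M w' (β + cb w') (ca w'))
    (x y : List Lt) : Psi F M (x ++ w ++ y) = Psi F M (x ++ w' ++ y) := by
  classical
  have key : ∀ v : List Lt, (∀ p q, path v p q ↔ p = 1 ∧ q = 0) → spec v = 2 →
      Psi F M (x ++ v ++ y) = if path x 0 1 ∧ y = [] ∧ spec x = 1 then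
        sumv F M v (cb x + cb v) (ca v) else 0 := by
    intro v hpv hsv
    rw [Psi_eq]
    have h1 : (path (x ++ v ++ y) 0 0 ∧ spec (x ++ v ++ y) = 3) ↔
        (path x 0 1 ∧ y = [] ∧ spec x = 1) := by
      rw [path_append, spec_append, spec_append, hsv]
      constructor
      · rintro ⟨⟨k, h1, h2⟩, h3⟩
        rw [path_append] at h1
        obtain ⟨k', h4, h5⟩ := h1
        rw [hpv] at h5
        obtain ⟨rfl, rfl⟩ := h5
        have h6 := (left_decomp h4).1
        rcases closed_decomp h2 with h7 | h7
        · subst h7
          rw [spec_nil] at h3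
          exact ⟨h4, rfl, by omega⟩
        · omega
      · rintro ⟨h1, rfl, h3⟩
        refine ⟨⟨0, ?_, rfl⟩, by rw [spec_nil]; omega⟩
        rw [path_append]
        exact ⟨1, h1, (hpv 1 0).2 ⟨rfl, rfl⟩⟩
    by_cases hC : path x 0 1 ∧ y = [] ∧ spec x = 1
    · rw [if_pos hC, if_pos (h1.2 hC)]
      obtain ⟨hx, rfl, hsx⟩ := hC
      obtain ⟨x', rfl, hx'⟩ := (left_decomp hx).2 hsx
      have h3 : ∀ β α, vl F M B β α = 0 := by
        intro β α
        simp [vl]
      have h4 : ca (B :: x') = 0 := by
        have h5 : B :: x' = [B] ++ x' := rfl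
        rw [h5, ca_append, ca_isB hx']
        funext k
        simp [ca]
      rw [List.append_nil, cb_append, ca_append, sumv_append, sumv_cons, sumv_isB F M hx', h3, h4]
      simp only [zero_add]
    · rw [if_neg hC, if_neg (fun h => hC (h1.1 h))]
  rw [key w hp hs, key w' hp' hs']
  split_ifs
  · exact hv _
  · rfl

theorem psi_congr02 {w w' : List Lt} (hp : ∀ p q, path w p q ↔ p = 0 ∧ q = 2)
    (hp' : ∀ p q, path w' p q ↔ p = 0 ∧ q = 2) (hs : spec w = 2) (hs' : spec w' = 2)
    (hv : ∀ α, sumv F M w (cb w) (α + ca w) = sumv F M w' (cb w') (α + ca w'))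
    (x y : List Lt) : Psi F M (x ++ w ++ y) = Psi F M (x ++ w' ++ y) := by
  classical
  have key : ∀ v : List Lt, (∀ p q, path v p q ↔ p = 0 ∧ q = 2) → spec v = 2 →
      Psi F M (x ++ v ++ y) = if x = [] ∧ path y 2 0 ∧ spec y = 1 then
        sumv F M v (cb v) (ca y + ca v) else 0 := by
    intro v hpv hsv
    rw [Psi_eq]
    have h1 : (path (x ++ v ++ y) 0 0 ∧ spec (x ++ v ++ y) = 3) ↔
        (x = [] ∧ path y 2 0 ∧ spec y = 1) := by
      rw [path_append, spec_append, spec_append, hsv]
      constructor
      · rintro ⟨⟨k, h1, h2⟩, h3⟩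
        rw [path_append] at h1
        obtain ⟨k', h4, h5⟩ := h1
        rw [hpv] at h5
        obtain ⟨rfl, rfl⟩ := h5
        have h6 := (right_decomp y h2).1
        rcases closed_decomp h4 with h7 | h7
        · subst h7
          rw [spec_nil] at h3
          exact ⟨rfl, h2, by omega⟩
        · omega
      · rintro ⟨rfl, h1, h3⟩
        refine ⟨⟨2, ?_, h1⟩, by rw [spec_nil]; omega⟩
        rw [path_append]
        exact ⟨0, rfl, (hpv 0 2).2 ⟨rfl, rfl⟩⟩
    by_cases hC : x = [] ∧ path y 2 0 ∧ spec y = 1
    · rw [if_pos hC, if_pos (h1.2 hC)]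
      obtain ⟨rfl, hy, hsy⟩ := hC
      obtain ⟨y', rfl, hy'⟩ := (right_decomp y hy).2 hsy
      have h3 : ∀ β α, sumv F M [A] β α = 0 := by
        intro β α
        simp [sumv, vl]
      have h4 : cb (y' ++ [A]) = 0 := by
        rw [cb_append, cb_isA hy']
        funext k
        simp [cb]
      rw [List.nil_append, cb_append, ca_append, sumv_append, sumv_append, sumv_isA F M hy', h3,
        h4]
      simp only [add_zero]
      congr 1
      exact add_comm _ _
    · rw [if_neg hC, if_neg (fun h => hC (h1.1 h))]
  rw [key w hp hs, key w' hp' hs']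
  split_ifs
  · exact hv _
  · rfl

theorem psi_perm {w w' : List Lt} (hp : ∀ p q, path w p q ↔ path w' p q) (h : w.Perm w')
    (x y : List Lt) : Psi F M (x ++ w ++ y) = Psi F M (x ++ w' ++ y) := by
  classical
  have h1 : (x ++ w ++ y).Perm (x ++ w' ++ y) := (h.append_left x).append_right y
  rw [Psi_eq, Psi_eq]
  have h2 : path (x ++ w ++ y) 0 0 ↔ path (x ++ w' ++ y) 0 0 := by
    simp only [path_append, hp]
  have h3 : spec (x ++ w ++ y) = spec (x ++ w' ++ y) := (h1.map spl).sum_eq
  have h4 : cb (x ++ w ++ y) = cb (x ++ w' ++ y) := by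
    funext k
    exact h1.count_eq _
  have h5 : ca (x ++ w ++ y) = ca (x ++ w' ++ y) := by
    funext k
    exact h1.count_eq _
  have h6 : ∀ β α, sumv F M (x ++ w ++ y) β α = sumv F M (x ++ w' ++ y) β α := fun β α =>
    (h1.map _).sum_eq
  rw [h3, h4, h5, h6]
  simp only [h2]

theorem path_rep (m : ℕ) (k : Fin 4) (w : List Lt) (q' : Fin 3) :
    path (List.replicate m (a k) ++ w) 2 q' ↔ path w 2 q' := by
  induction m with
  | zero => simp
  | succ m ih =>
    rw [List.replicate_succ, List.cons_append]
    constructor
    · rintro ⟨_, h⟩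
      exact ih.1 h
    · intro h
      exact ⟨rfl, ih.2 h⟩

theorem path_rep' (m : ℕ) (k : Fin 4) (q' : Fin 3) :
    path (List.replicate m (a k)) 2 q' ↔ q' = 2 := by
  have := path_rep m k [] q'
  rw [List.append_nil] at this
  rw [this]
  exact eq_comm

theorem spec_rep (m : ℕ) (k : Fin 4) : spec (List.replicate m (a k)) = 0 := by
  simp [spec, spl]

theorem isA_rep (m : ℕ) (k : Fin 4) : isA (List.replicate m (a k)) := by
  intro l hl
  exact ⟨k, (List.mem_replicate.1 hl).2⟩

theorem ca_rep (m : ℕ) (k : Fin 4) : ca (List.replicate m (a k)) = Pi.single k m := by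
  funext k'
  simp only [ca, List.count_replicate]
  by_cases h : k' = k
  · subst h
    simp
  · rw [Pi.single_eq_of_ne h]
    simp [Ne.symm h]

theorem ca_cons (l : Lt) (w : List Lt) : ca (l :: w) = ca [l] + ca w := ca_append [l] w
theorem cb_cons (l : Lt) (w : List Lt) : cb (l :: w) = cb [l] + cb w := cb_append [l] w

theorem ca_nil : ca [] = 0 := by funext k'; simp [ca]
theorem cb_nil : cb [] = 0 := by funext k'; simp [cb]
theorem ca_a (k : Fin 4) (w : List Lt) : ca (a k :: w) = Pi.single k 1 + ca w := by
  rw [ca_cons]
  congr 1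
  exact ca_rep 1 k
theorem cb_b (k : Fin 4) (w : List Lt) : cb (b k :: w) = Pi.single k 1 + cb w := by
  rw [cb_cons]
  congr 1
  funext k'
  simp only [cb]
  by_cases h : k' = k
  · subst h
    simp
  · rw [Pi.single_eq_of_ne h]
    simp [Ne.symm h]
theorem ca_b (k : Fin 4) (w : List Lt) : ca (b k :: w) = ca w := by funext k'; simp [ca]
theorem cb_a (k : Fin 4) (w : List Lt) : cb (a k :: w) = cb w := by funext k'; simp [cb]
theorem ca_q (i : ℕ) (w : List Lt) : ca (q i :: w) = ca w := by funext k'; simp [ca]
theorem cb_q (i : ℕ) (w : List Lt) : cb (q i :: w) = cb w := by funext k'; simp [cb]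
theorem ca_r (i j : ℕ) (w : List Lt) : ca (r i j :: w) = ca w := by funext k'; simp [ca]
theorem cb_r (i j : ℕ) (w : List Lt) : cb (r i j :: w) = cb w := by funext k'; simp [cb]
theorem ca_h (w : List Lt) : ca (Lt.h :: w) = ca w := by funext k'; simp [ca]
theorem cb_h (w : List Lt) : cb (Lt.h :: w) = cb w := by funext k'; simp [cb]
theorem ca_A (w : List Lt) : ca (A :: w) = ca w := by funext k'; simp [ca]
theorem cb_A (w : List Lt) : cb (A :: w) = cb w := by funext k'; simp [cb]
theorem ca_B (w : List Lt) : ca (B :: w) = ca w := by funext k'; simp [ca]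
theorem cb_B (w : List Lt) : cb (B :: w) = cb w := by funext k'; simp [cb]

theorem vl_a (k : Fin 4) (β α : Fin 4 → ℕ) : vl F M (a k) β α = 0 := rfl
theorem vl_b (k : Fin 4) (β α : Fin 4 → ℕ) : vl F M (b k) β α = 0 := rfl
theorem vl_A (β α : Fin 4 → ℕ) : vl F M A β α = 0 := rfl
theorem vl_B (β α : Fin 4 → ℕ) : vl F M B β α = 0 := rfl
theorem vl_h (β α : Fin 4 → ℕ) : vl F M Lt.h β α = 1 := rfl

theorem vl_q_none {i : ℕ} (hM : M i = none) (β α : Fin 4 → ℕ) : vl F M (q i) β α = 1 := by
  simp only [vl, hM]

theorem vl_q_some {i : ℕ} {g : GI ℕ} (hM : M i = some g) (β α : Fin 4 → ℕ) :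
    vl F M (q i) β α = ind F (Halts M (g.nx (α g.k % g.m)) (R1 g β α)) := by
  simp only [vl, hM]

theorem vl_r_some {i j : ℕ} {g : GI ℕ} (hM : M i = some g) (β α : Fin 4 → ℕ) :
    vl F M (r i j) β α = ind F (Halts M (g.nx j) (R2 g j β α)) := by
  simp only [vl, hM]

theorem vl_q_zero (i : ℕ) (α : Fin 4 → ℕ) : vl F M (q i) 0 α = ind F (Halts M i α) := by
  cases hM : M i with
  | none =>
    rw [vl_q_none F M hM, ind, if_pos (Halts.halt hM)]
  | some g =>
    rw [vl_q_some F M hM]
    have h1 : R1 g 0 α = g.upd α := by
      unfold R1 GI.upd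
      simp
    rw [h1]
    have h2 : Halts M i α = Halts M (g.nx (α g.k % g.m)) (g.upd α) :=
      propext (halts_step_iff hM)
    rw [h2]

/-- all the relations hold -/
theorem rels_valid {N : ℕ} (hcl : ∀ i g, M i = some g → 0 < g.m ∧ ∀ r, g.nx r < N)
    (p : (Lt × List Lt) × (Lt × List Lt)) (hp : p ∈ rels M N) (x y : List Lt) :
    Psi F M (x ++ comb p.1 ++ y) = Psi F M (x ++ comb p.2 ++ y) := by
  unfold rels at hp
  rw [List.mem_append, List.mem_append, List.mem_flatMap, List.mem_map, List.mem_flatMap] at hp
  rcases hp with (⟨k, _, hp⟩ | ⟨k, _, rfl⟩) | ⟨i, hi, hp⟩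
  · obtain ⟨k', _, rfl⟩ := List.mem_map.1 hp
    apply psi_perm
    · intro p q
      simp [comb, path, src, tgt]
    · exact List.Perm.swap _ _ _
  · apply psi_congr12
    · intro p q
      simp only [comb, path, src, tgt, true_and]
      constructor
      · rintro ⟨h1, h2⟩; exact ⟨h1, h2.symm⟩
      · rintro ⟨h1, h2⟩; exact ⟨h1, h2.symm⟩
    · intro p q
      simp only [comb, path, src, tgt]
      constructor
      · rintro ⟨h1, h2⟩; exact ⟨h1, h2.symm⟩
      · rintro ⟨h1, h2⟩; exact ⟨h1, h2.symm⟩
    · simp [comb, spec, spl]
    · simp [comb, spec, spl]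
    · intro β α
      simp only [comb, sumv_cons, sumv_nil, vl_h, vl_a, add_zero]
  · unfold relsOf at hp
    cases hM : M i with
    | none =>
      rw [hM] at hp
      simp only [List.mem_singleton] at hp
      subst hp
      apply psi_congr12
      · intro p q
        simp only [comb, path, src, tgt]
        constructor
        · rintro ⟨h1, h2⟩; exact ⟨h1, h2.symm⟩
        · rintro ⟨h1, h2⟩; exact ⟨h1, h2.symm⟩
      · intro p q
        simp only [comb, path, src, tgt]
        constructor
        · rintro ⟨h1, h2⟩; exact ⟨h1, h2.symm⟩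
        · rintro ⟨h1, h2⟩; exact ⟨h1, h2.symm⟩
      · simp [comb, spec, spl]
      · simp [comb, spec, spl]
      · intro β α
        simp only [comb, sumv_cons, sumv_nil, vl_h, vl_q_none F M hM, add_zero]
    | some g =>
      rw [hM] at hp
      obtain ⟨hm, hnx⟩ := hcl i g hM
      simp only [List.mem_append, List.mem_map, List.mem_flatMap, List.mem_cons,
        List.mem_range] at hp
      rcases hp with ⟨k, _, rfl⟩ | ⟨j, hj, rfl | rfl | ⟨k, _, rfl⟩⟩
      · by_cases hk : k = g.k
        · rw [if_pos hk]
          subst hk
          apply psi_congr12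
          · intro p q
            simp only [comb, path, src, tgt, path_rep']
          · intro p q
            simp only [comb, path, src, tgt, true_and]
            constructor
            · rintro ⟨h1, h2⟩; exact ⟨h1, h2.symm⟩
            · rintro ⟨h1, h2⟩; exact ⟨h1, h2.symm⟩
          · simp only [comb, spec_cons, spec_rep, spl]
          · simp only [comb, spec_cons, spec_nil, spl]
          · intro β α
            simp only [comb, sumv_cons, sumv_nil, vl_b, zero_add, add_zero,
              sumv_isA F M (isA_rep _ _), vl_q_some F M hM, ca_q, cb_q, ca_rep,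
              cb_isA (isA_rep _ _), ca_b, cb_b, add_zero, zero_add]
            simp only [ca_nil, cb_nil, add_zero]
            have e3 : (α + Pi.single g.k g.m : Fin 4 → ℕ) g.k = α g.k + g.m := by simp
            have e4 : R1 g β (α + Pi.single g.k g.m) = R1 g (β + Pi.single g.k 1) α := by
              unfold R1
              funext k'
              by_cases hk' : k' = g.k
              · subst hk'
                rw [Function.update_self, Function.update_self, e3, Nat.add_mod_right,
                  Nat.add_div_right _ hm]
                simp only [Pi.add_apply, Pi.single_eq_same]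
                ring
              · rw [Function.update_of_ne hk', Function.update_of_ne hk']
                simp [hk']
            rw [e3, e4, Nat.add_mod_right]
        · rw [if_neg hk]
          apply psi_congr12
          · intro p q
            simp only [comb, path, src, tgt, true_and]
            constructor
            · rintro ⟨h1, h2⟩; exact ⟨h1, h2.symm⟩
            · rintro ⟨h1, h2⟩; exact ⟨h1, h2.symm⟩
          · intro p q
            simp only [comb, path, src, tgt, true_and]
            constructor
            · rintro ⟨h1, h2⟩; exact ⟨h1, h2.symm⟩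
            · rintro ⟨h1, h2⟩; exact ⟨h1, h2.symm⟩
          · simp only [comb, spec_cons, spec_nil, spl]
          · simp only [comb, spec_cons, spec_nil, spl]
          · intro β α
            simp only [comb, sumv_cons, sumv_nil, vl_a, vl_b, zero_add, add_zero,
              vl_q_some F M hM, ca_q, cb_q, ca_a, cb_a, ca_b, cb_b]
            simp only [ca_nil, cb_nil, add_zero]
            have e3 : (α + Pi.single k 1 : Fin 4 → ℕ) g.k = α g.k := by
              simp [Ne.symm hk]
            have e5 : (β + Pi.single k 1 : Fin 4 → ℕ) g.k = β g.k := by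
              simp [Ne.symm hk]
            have e4 : R1 g β (α + Pi.single k 1) = R1 g (β + Pi.single k 1) α := by
              unfold R1
              rw [e3, e5]
              congr 1
              abel
            rw [e3, e4]
      · apply psi_congr10
        · intro p q
          simp only [comb, path, src, tgt, path_rep, true_and]
          constructor
          · rintro ⟨h1, h2⟩; exact ⟨h1, h2.symm⟩
          · rintro ⟨h1, h2⟩; exact ⟨h1, h2.symm⟩
        · intro p q
          simp only [comb, path, src, tgt, true_and]
          constructor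
          · rintro ⟨h1, h2⟩; exact ⟨h1, h2.symm⟩
          · rintro ⟨h1, h2⟩; exact ⟨h1, h2.symm⟩
        · simp only [comb, spec_cons, spec_append, spec_rep, spec_nil, spl]
        · simp only [comb, spec_cons, spec_nil, spl]
        · intro β
          simp only [comb, sumv_cons, sumv_append, sumv_nil, vl_A, zero_add, add_zero,
            sumv_isA F M (isA_rep _ _), vl_q_some F M hM, vl_r_some F M hM, 
            ca_append, cb_append, ca_q, cb_q, ca_rep, cb_isA (isA_rep _ _), ca_r, cb_r]
          simp only [ca_A, cb_A, ca_nil, cb_nil, add_zero]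
          have e3 : (Pi.single g.k j : Fin 4 → ℕ) g.k = j := by simp
          have e4 : R1 g β (Pi.single g.k j) = R2 g j β 0 := by
            unfold R1 R2
            funext k'
            by_cases hk' : k' = g.k
            · subst hk'
              rw [Function.update_self, Function.update_self, e3, Nat.mod_eq_of_lt hj,
                Nat.div_eq_of_lt hj]
              simp
            · rw [Function.update_of_ne hk', Function.update_of_ne hk']
              simp [hk']
          rw [e3, e4, Nat.mod_eq_of_lt hj]
      · apply psi_congr02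
        · intro p q
          simp only [comb, path, src, tgt, true_and]
          constructor
          · rintro ⟨h1, h2⟩; exact ⟨h1, h2.symm⟩
          · rintro ⟨h1, h2⟩; exact ⟨h1, h2.symm⟩
        · intro p q
          simp only [comb, path, src, tgt, path_rep', true_and]
        · simp only [comb, spec_cons, spec_nil, spl]
        · simp only [comb, spec_cons, spec_rep, spl]
        · intro α
          simp only [comb, sumv_cons, sumv_nil, vl_B, zero_add, add_zero,
            sumv_isA F M (isA_rep _ _), vl_r_some F M hM, 
            ca_q, cb_q, ca_rep, cb_isA (isA_rep _ _), ca_r, cb_r, ca_B, cb_B]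
          simp only [ca_nil, cb_nil, add_zero]
          rw [vl_q_zero]
          have e4 : R2 g j 0 α = α + Pi.single g.k (g.d j) := by
            unfold R2
            funext k'
            by_cases hk' : k' = g.k
            · subst hk'
              rw [Function.update_self]
              simp
            · rw [Function.update_of_ne hk']
              simp [hk']
          rw [e4]
      · by_cases hk : k = g.k
        · rw [if_pos hk]
          subst hk
          apply psi_congr12
          · intro p q
            simp only [comb, path, src, tgt, true_and]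
            constructor
            · rintro ⟨h1, h2⟩; exact ⟨h1, h2.symm⟩
            · rintro ⟨h1, h2⟩; exact ⟨h1, h2.symm⟩
          · intro p q
            simp only [comb, path, src, tgt, path_rep']
          · simp only [comb, spec_cons, spec_nil, spl]
          · simp only [comb, spec_cons, spec_rep, spl]
          · intro β α
            simp only [comb, sumv_cons, sumv_nil, vl_b, zero_add, add_zero,
              sumv_isA F M (isA_rep _ _), vl_r_some F M hM, ca_r, cb_r, ca_rep,
              cb_isA (isA_rep _ _), ca_b, cb_b]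
            simp only [ca_nil, cb_nil, add_zero]
            have e4 : R2 g j (β + Pi.single g.k 1) α = R2 g j β (α + Pi.single g.k g.l) := by
              unfold R2
              funext k'
              by_cases hk' : k' = g.k
              · subst hk'
                rw [Function.update_self, Function.update_self]
                simp only [Pi.add_apply, Pi.single_eq_same]
                ring
              · rw [Function.update_of_ne hk', Function.update_of_ne hk']
                simp [hk']
            rw [e4]
        · rw [if_neg hk]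
          apply psi_congr12
          · intro p q
            simp only [comb, path, src, tgt, true_and]
            constructor
            · rintro ⟨h1, h2⟩; exact ⟨h1, h2.symm⟩
            · rintro ⟨h1, h2⟩; exact ⟨h1, h2.symm⟩
          · intro p q
            simp only [comb, path, src, tgt, true_and]
            constructor
            · rintro ⟨h1, h2⟩; exact ⟨h1, h2.symm⟩
            · rintro ⟨h1, h2⟩; exact ⟨h1, h2.symm⟩
          · simp only [comb, spec_cons, spec_nil, spl]
          · simp only [comb, spec_cons, spec_nil, spl]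
          · intro β α
            simp only [comb, sumv_cons, sumv_nil, vl_a, vl_b, zero_add, add_zero,
              vl_r_some F M hM, ca_r, cb_r, ca_a, cb_a, ca_b, cb_b]
            simp only [ca_nil, cb_nil, add_zero]
            have e3 : (α + Pi.single k 1 : Fin 4 → ℕ) g.k = α g.k := by
              simp [Ne.symm hk]
            have e5 : (β + Pi.single k 1 : Fin 4 → ℕ) g.k = β g.k := by
              simp [Ne.symm hk]
            have e4 : R2 g j (β + Pi.single k 1) α = R2 g j β (α + Pi.single k 1) := by
              unfold R2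
              rw [e3, e5]
              congr 1
              abel
            rw [e4]

end

end Pool.Agent.Lib.MP_79b5eb_lc
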